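import Pool.Agent.H2.ED.Defs

/-!
# Zariski dense orbits in dimension `ν`: totally invariant closed subsets, the targets
-/

open MvPolynomial
open Pool.Agent.H12.ZD (pmap)
open Pool.Agent.H18.HIT Pool.Agent.H18.HX Pool.Agent.H18.VZ
open Pool.Agent.H8.TD (lc dg Wsp)

namespace Pool.Agent.H2.ED

/-! ## A. Function fields -/

/-- the field of rational functions of the hypersurface and the action of the map -/
def T_FLD : Prop := ∀ (ν r d : ℕ) (k : Type) [Field k] [CharZero k] (P : Po (ν + 2) k)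
  (F : Tup (ν + 2) k), Hyp P r → (∀ i, (F i).IsHomogeneous d) → Slf (Ideal.span {P}) F →
  ∃ (K : Type) (_ : Field K) (_ : Algebra k K) (ξ : Fin (ν + 2) → K) (τ : K →ₐ[k] K),
    Fd P F ξ τ

/-- the field of rational functions of an invariant closed subset -/
def T_FLV : Prop := ∀ (ν d : ℕ) (k : Type) [Field k] (V : Ideal (Po (ν + 2) k))
  (F : Tup (ν + 2) k), V.IsPrime → Hmi V → X 1 ∉ V → (∀ i, (F i).IsHomogeneous d) →
  (∀ q, aeval F q ∈ V ↔ q ∈ V) →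
  ∃ (r : ℕ) (κ : Type) (_ : Field κ) (_ : Algebra k κ) (η : Fin (ν + 2) → κ) (τ : κ →ₐ[k] κ),
    Fv V r F η τ

/-- the dimension of a closed subset which is not a hypersurface -/
def T_VDM : Prop := ∀ (ν r₀ r : ℕ) (k κ : Type) [Field k] [Field κ] [Algebra k κ]
  (P : Po (ν + 2) k) (V : Ideal (Po (ν + 2) k)) (η : Fin (ν + 2) → κ), Hyp P r₀ → V.IsPrime →
  Hmi V → P ∈ V → (∃ c ∈ V, ¬ P ∣ c) → (¬ ∃ h, Pdv P V h) → Gv V r η → r + 2 ≤ ν

/-- the degree of the map on a totally invariant closed subset -/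
def T_TIV : Prop := ∀ (ν r D E e : ℕ) (k κ : Type) [Field k] [IsAlgClosed k] [CharZero k]
  [Field κ] [Algebra k κ] (P θ : Po (ν + 2) k) (T : Tup (ν + 2) k) (V : Ideal (Po (ν + 2) k))
  (η : Fin (ν + 2) → κ) (τ : κ →ₐ[k] κ), 1 ≤ D → (∀ i, (T i).IsHomogeneous D) → V.IsPrime →
  Hmi V → (∀ q, aeval T q ∈ V ↔ q ∈ V) → Tot P T E θ V → Fv V r T η τ → D * e ≤ E →
  e ≤ Module.finrank τ.fieldRange κ

/-- the functions which are regular at the generic point of `V` -/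
def T_LRG : Prop := ∀ (ν r : ℕ) (k K κ : Type) [Field k] [Field K] [Algebra k K] [Field κ]
  [Algebra k κ] (P : Po (ν + 2) k) (V : Ideal (Po (ν + 2) k)) (ξ : Fin (ν + 2) → K)
  (η : Fin (ν + 2) → κ), P ∈ V → Gp P ξ → Gv V r η →
  ∃ (R : Subalgebra k K) (ρ : R →ₐ[k] κ), Lrd ξ η R ρ

/-! ## B. Derivations -/

/-- the partial derivatives on the local ring of `V` -/
def T_DRV : Prop := ∀ (ν r₀ r : ℕ) (k K κ : Type) [Field k] [CharZero k] [Field K] [Algebra k K]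
  [Field κ] [Algebra k κ] (P : Po (ν + 2) k) (V : Ideal (Po (ν + 2) k)) (ξ : Fin (ν + 2) → K)
  (η : Fin (ν + 2) → κ) (R : Subalgebra k K) (ρ : R →ₐ[k] κ), Hyp P r₀ → P ∈ V → Gp P ξ →
  Gv V r η → Lrd ξ η R ρ → aeval η (pderiv 0 P) ≠ 0 →
  ∃ D : Fin ν → Derivation k R R, ∀ (j : Fin ν) (p : Po (ν + 2) k) (h : aeval ξ p ∈ R),
    (D j ⟨aeval ξ p, h⟩ : K) * aeval ξ (pderiv 0 P) = aeval ξ (dd P j.succ p)

/-- the conormal space of `V` -/
def T_JCB : Prop := ∀ (ν r₀ r : ℕ) (k κ : Type) [Field k] [CharZero k] [Field κ] [Algebra k κ]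
  (P : Po (ν + 2) k) (V : Ideal (Po (ν + 2) k)) (η : Fin (ν + 2) → κ), Hyp P r₀ → V.IsPrime →
  Hmi V → P ∈ V → Gv V r η → aeval η (pderiv 0 P) ≠ 0 → r ≤ ν ∧
  ∃ (s : ℕ) (q : Fin (ν - r) → Po (ν + 2) k), (∀ i, q i ∈ V ∧ (q i).IsHomogeneous s) ∧
    LinearIndependent κ (fun i => gr P η (q i)) ∧
    ∀ p ∈ V, gr P η p ∈ Submodule.span κ (Set.range fun i => gr P η (q i))

/-- functions which are independent on `V` are independent in the directions tangent to `V` -/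
def T_TRV : Prop := ∀ (ν r₀ r : ℕ) (k K κ : Type) [Field k] [CharZero k] [Field K] [Algebra k K]
  [Field κ] [Algebra k κ] (P : Po (ν + 2) k) (V : Ideal (Po (ν + 2) k)) (ξ : Fin (ν + 2) → K)
  (η : Fin (ν + 2) → κ) (R : Subalgebra k K) (ρ : R →ₐ[k] κ) (D : Fin ν → Derivation k R R),
  Hyp P r₀ → P ∈ V → Gp P ξ → Gv V r η → Lrd ξ η R ρ → aeval η (pderiv 0 P) ≠ 0 →
  (∀ (j : Fin ν) (p : Po (ν + 2) k) (h : aeval ξ p ∈ R),
    (D j ⟨aeval ξ p, h⟩ : K) * aeval ξ (pderiv 0 P) = aeval ξ (dd P j.succ p)) →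
  ∀ y : Fin r → R, AlgebraicIndependent k (fun i => ρ (y i)) → ∀ v : Fin ν → κ,
    (∀ p ∈ V, ∑ j, v j * gr P η p j = 0) → (∀ i, ∑ j, v j * ρ (D j (y i)) = 0) → v = 0

/-- the chain rule for an invariant subset which is not in the ramification -/
def T_CHN : Prop := ∀ (ν r₀ r d : ℕ) (k K κ : Type) [Field k] [CharZero k] [Field K] [Algebra k K]
  [Field κ] [Algebra k κ] (P : Po (ν + 2) k) (V : Ideal (Po (ν + 2) k)) (T : Tup (ν + 2) k)
  (ξ : Fin (ν + 2) → K) (η : Fin (ν + 2) → κ) (τ : K →ₐ[k] K) (τV : κ →ₐ[k] κ)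
  (R : Subalgebra k K) (ρ : R →ₐ[k] κ) (D : Fin ν → Derivation k R R),
  Hyp P r₀ → P ∈ V → Hmi V → (∀ i, (T i).IsHomogeneous d) → (∀ q, aeval T q ∈ V ↔ q ∈ V) →
  Fd P T ξ τ → Fv V r T η τV → Lrd ξ η R ρ → aeval η (pderiv 0 P) ≠ 0 →
  (∀ (j : Fin ν) (p : Po (ν + 2) k) (h : aeval ξ p ∈ R),
    (D j ⟨aeval ξ p, h⟩ : K) * aeval ξ (pderiv 0 P) = aeval ξ (dd P j.succ p)) →
  aeval η (jm P T).det ≠ 0 →
  (∀ z : R, ∃ z' : R, (z' : K) = τ z ∧ ρ z' = τV (ρ z)) ∧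
  ∀ (m : ℕ) (z z' : Fin m → R), (∀ i, (z' i : K) = τ (z i)) →
    LinearIndependent κ (fun i => fun j => ρ (D j (z i))) →
    LinearIndependent κ (fun i => fun j => ρ (D j (z' i)))

/-- the derivatives of the functions which vanish on `V` -/
def T_KSP : Prop := ∀ (ν r₀ r : ℕ) (k K κ : Type) [Field k] [CharZero k] [Field K] [Algebra k K]
  [Field κ] [Algebra k κ] (P : Po (ν + 2) k) (V : Ideal (Po (ν + 2) k)) (ξ : Fin (ν + 2) → K)
  (η : Fin (ν + 2) → κ) (R : Subalgebra k K) (ρ : R →ₐ[k] κ) (D : Fin ν → Derivation k R R),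
  Hyp P r₀ → P ∈ V → Hmi V → Gp P ξ → Gv V r η → Lrd ξ η R ρ → aeval η (pderiv 0 P) ≠ 0 →
  (∀ (j : Fin ν) (p : Po (ν + 2) k) (h : aeval ξ p ∈ R),
    (D j ⟨aeval ξ p, h⟩ : K) * aeval ξ (pderiv 0 P) = aeval ξ (dd P j.succ p)) →
  ∀ z : R, ρ z = 0 → ∃ p ∈ V, ∃ c : κ, (fun j => ρ (D j z)) = c • gr P η p

/-- the jacobian determinant in affine coordinates -/
def T_JPR : Prop := ∀ (ν r₀ d : ℕ) (k : Type) [Field k] [CharZero k] (P : Po (ν + 2) k)
  (T : Tup (ν + 2) k), Hyp P r₀ → 1 ≤ d → (∀ i, (T i).IsHomogeneous d) →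
  Slf (Ideal.span {P}) T → ¬ P ∣ (jm P T).det

/-- the residue degree of a function field at a regular prime is at most the degree -/
def T_RES : Prop := ∀ (k R K κ : Type) [Field k] [CharZero k] [CommRing R] [IsDomain R] [Field K]
  [Field κ] [Algebra k R] [Algebra R K] [Algebra k K] [IsScalarTower k R K] [Algebra k κ]
  (ρ : R →ₐ[k] κ) (n c r : ℕ) (D : Fin n → Derivation k R R) (w : Fin c → R) (y : Fin r → R),
  Function.Injective (algebraMap R K) → Function.Surjective ρ → (∀ z, ρ z ≠ 0 → IsUnit z) →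
  c + r = n → (∀ i, ρ (w i) = 0) → AlgebraicIndependent k (fun i => ρ (y i)) →
  (∀ v : Fin n → κ, (∀ i, ∑ j, v j * ρ (D j (w i)) = 0) → (∀ i, ∑ j, v j * ρ (D j (y i)) = 0) →
    v = 0) →
  FiniteDimensional (IntermediateField.adjoin k (Set.range (fun i => algebraMap R K (w i)) ∪
    Set.range (fun i => algebraMap R K (y i)))) K →
  dg k (Set.range fun i => ρ (y i)) ≤ dg k (Set.range (fun i => algebraMap R K (w i)) ∪
    Set.range (fun i => algebraMap R K (y i)))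

/-- exchange of two bases -/
def T_XCH : Prop := ∀ (κ W : Type) [Field κ] [AddCommGroup W] [Module κ W] (c : ℕ)
  (a b : Fin c → W), LinearIndependent κ a → LinearIndependent κ b →
  (∀ i, b i ∈ Submodule.span κ (Set.range a)) → ∀ p ≤ c, ∃ f : Fin c → W,
    LinearIndependent κ f ∧ (∀ i : Fin c, (i : ℕ) < p → f i = b i) ∧
    ∀ i : Fin c, p ≤ (i : ℕ) → ∃ i', f i = a i'

/-! ## C. Degrees -/

/-- the degrees of rational functions in linear systems -/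
def T_INM : Prop := ∀ (k K : Type) [Field k] [CharZero k] [Field K] [Algebra k K] (n a Y : ℕ)
  (φ : Fin n → Fin a → K) (p p₀ : Fin n → MvPolynomial (Fin a) k) (δ : Fin n → ℕ),
  (⊤ : IntermediateField k K).FG → Algebra.trdeg k K = n →
  (∀ s : Fin n → Fin a → k, dg k (Set.range fun i => lc (s i) (φ i)) ≤ Y) →
  (∀ i, (p i).totalDegree ≤ δ i) → (∀ i, (p₀ i).totalDegree ≤ δ i) →
  (∀ i, aeval (φ i) (p₀ i) ≠ 0) →
  dg k (Set.range fun i => aeval (φ i) (p i) / aeval (φ i) (p₀ i)) ≤ (∏ i, δ i) * Y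

/-- the degree of the extension is at most the number of points of the general fibre -/
def T_UPD : Prop := ∀ (L n M : ℕ) (k K : Type) [Field k] [IsAlgClosed k] [CharZero k] [Field K]
  [Algebra k K] (I : Ideal (Po L k)) (χ : Fin L → K) (s₀ : Po L k) (A B : Fin n → Po L k)
  (m : Fin n → ℕ) (c : Po n k), I.IsPrime → (∀ q ∈ I, ∀ t, homogeneousComponent t q ∈ I) →
  Algebra.trdeg k K = n → s₀.IsHomogeneous 1 →
  (∀ i, (A i).IsHomogeneous (m i)) → (∀ i, (B i).IsHomogeneous (m i)) → aeval χ s₀ ≠ 0 →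
  (∀ i, aeval χ (B i) ≠ 0) →
  IntermediateField.adjoin k (Set.range fun i => χ i / aeval χ s₀) = ⊤ →
  (∀ (s : ℕ) (q : Po L k), q.IsHomogeneous s → (aeval χ q = 0 ↔ q ∈ I)) → c ≠ 0 →
  (∀ t : Fin n → k, eval t c ≠ 0 → ∀ S : Finset (Fin L → k), (∀ x ∈ S, Zer I x ∧
    eval x s₀ = 1 ∧ ∀ i, eval x (B i) ≠ 0 ∧ eval x (A i) = t i * eval x (B i)) →
    S.card ≤ M) →
  dg k (Set.range fun i => aeval χ (A i) / aeval χ (B i)) ≤ M

end Pool.Agent.H2.ED
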