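import Pool.Agent.H8.TX.Basic
import Pool.Agent.H2.ED.Targets
import Pool.Agent.H49.VZ.Base
import Pool.Agent.H18.HIT.PN
import Pool.Agent.H18.HX.Basic

/-!
# Zariski dense orbits on threefolds: the iterates as functions
-/

set_option autoImplicit false

open MvPolynomial
open Pool.Agent.H12.ZD (pmap)
open Pool.Agent.H18.HIT Pool.Agent.H18.HX Pool.Agent.H18.VZ
open Pool.Agent.H8.ZA (HFam Const NA)
open Pool.Agent.H8.TD (lc dg Wsp Cop dh lc_single lc_map lc_iterate)

namespace Pool.Agent.H2.ED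

section alg

variable {ν : ℕ} {k K : Type} [Field k] [Field K] [Algebra k K]

/-- values of a form at proportional points -/
theorem aeval_smul_hom {N : ℕ} {q : Po N k} {s : ℕ} (hq : q.IsHomogeneous s) (c : K)
    (y : Fin N → K) : aeval (fun i => c * y i) q = c ^ s * aeval y q := by
  have h1 : aeval (fun i => c * y i) q = eval (fun i => c * y i) (map (algebraMap k K) q) := by
    rw [eval_map, aeval_def]
  have h2 : aeval y q = eval y (map (algebraMap k K) q) := by
    rw [eval_map, aeval_def]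
  rw [h1, h2]
  exact Pool.Agent.H8.TD.eval_smul (hq.map _) c y

variable {P : Po (ν + 2) k} {F : Tup (ν + 2) k} {ξ : Fin (ν + 2) → K} {τ : K →ₐ[k] K}

theorem aeval_P (h : Gp P ξ) {r : ℕ} (hP : Hyp P r) : aeval ξ P = 0 :=
  (h.iff r P hP.hom).2 dvd_rfl

theorem aeval_dvd (h : Gp P ξ) {r : ℕ} (hP : Hyp P r) {q : Po (ν + 2) k} (hq : P ∣ q) :
    aeval ξ q = 0 := by
  obtain ⟨u, rfl⟩ := hq
  rw [map_mul, aeval_P h hP, zero_mul]

theorem aeval_up_ne (h : Gp P ξ) {r : ℕ} (hP : Hyp P r) {c : Po (ν + 1) k} {D : ℕ}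
    (hD : c.IsHomogeneous D) (hc : c ≠ 0) : aeval ξ (up c) ≠ 0 := by
  intro h0
  apply Pool.Agent.H49.VZ.not_dvd_up hP hc
  refine (h.iff D (up c) ?_).1 h0
  exact hD.rename_isHomogeneous

theorem not_dvd_X {N r : ℕ} {P : Po (N + 1) k} (hP : Hyp P r) (i : Fin N) :
    ¬ P ∣ (X i.succ : Po (N + 1) k) := by
  intro h
  apply Pool.Agent.H49.VZ.not_dvd_up hP (X_ne_zero (R := k) i)
  rw [up, rename_X]
  exact h

theorem not_dvd_X1 {P : Po (ν + 2) k} {r : ℕ} (hP : Hyp P r) : ¬ P ∣ (X 1 : Po (ν + 2) k) := not_dvd_X hP 0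

/-- the iterates of the map in the field of rational functions -/
theorem tau_aeval (h : Fd P F ξ τ) {q : Po (ν + 2) k} {s : ℕ} (hq : q.IsHomogeneous s) :
    τ (aeval ξ q) * aeval ξ (F 1) ^ s = aeval ξ (aeval F q) := by
  have h1 : τ (aeval ξ q) = aeval (fun i => τ (ξ i)) q := by
    rw [← AlgHom.comp_apply, comp_aeval]
  have h2 : (fun i => aeval ξ (F i)) = fun i => aeval ξ (F 1) * τ (ξ i) := by
    funext i
    rw [← h.eq i, mul_comm]
  have h3 : aeval ξ (aeval F q) = aeval (fun i => aeval ξ (F i)) q := by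
    rw [← AlgHom.comp_apply, comp_aeval]
  rw [h1, h3, h2, aeval_smul_hom hq, mul_comm]

theorem pn_eq (h : Fd P F ξ τ) {r d : ℕ} (hP : Hyp P r) (hF : ∀ i, (F i).IsHomogeneous d)
    (hs : Slf (Ideal.span {P}) F) (n : ℕ) : aeval ξ (it F n 1) ≠ 0 ∧
      ∀ i, pn τ ξ n i = aeval ξ (it F n i) / aeval ξ (it F n 1) := by
  have hne : ∀ n, aeval ξ (it F n 1) ≠ 0 := by
    intro n h0
    have h1 := (h.gp.iff (d ^ n) (it F n 1) (it_hom hF n 1)).1 h0
    apply not_dvd_X1 hP
    have h2 : aeval (it F n) (X 1 : Po (ν + 2) k) ∈ Ideal.span {P} := by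
      rw [aeval_X]
      exact Ideal.mem_span_singleton.2 h1
    exact Ideal.mem_span_singleton.1 ((hs.it n).inj _ h2)
  refine ⟨hne n, ?_⟩
  induction n with
  | zero =>
    intro i
    have h1 : ∀ i, aeval ξ (it F 0 i) = ξ i := by
      intro i
      rw [it_zero, aeval_X]
    rw [h1, h1, h.gp.one, div_one]
    rfl
  | succ n ih =>
    intro i
    have hF1 : aeval ξ (F 1) ≠ 0 := by
      have := hne 1
      rwa [it_one] at this
    have h1 : pn τ ξ (n + 1) i = τ (pn τ ξ n i) := Function.iterate_succ_apply' _ _ _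
    have h2 : ∀ i, τ (aeval ξ (it F n i)) * aeval ξ (F 1) ^ (d ^ n) =
        aeval ξ (it F (n + 1) i) := by
      intro i
      rw [tau_aeval h (it_hom hF n i), it_succ']
      rfl
    rw [h1, ih, map_div₀, ← h2, ← h2, mul_div_mul_right _ _ (pow_ne_zero _ hF1)]

theorem pn_one (h : Fd P F ξ τ) (n : ℕ) : pn τ ξ n 1 = 1 := by
  have h1 : ∀ n, τ^[n] (1 : K) = 1 := by
    intro n
    induction n with
    | zero => rfl
    | succ n ih => rw [Function.iterate_succ_apply', ih, map_one]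
  rw [pn, h.gp.one, h1]

theorem pn_zero : pn τ ξ 0 = ξ := rfl

theorem pn_add (m n : ℕ) (i : Fin (ν + 2)) : τ^[m] (pn τ ξ n i) = pn τ ξ (m + n) i := by
  rw [pn, ← Function.iterate_add_apply]
  rfl

theorem iter_algHomX (τ : K →ₐ[k] K) (n : ℕ) : ∃ f : K →ₐ[k] K, ⇑f = τ^[n] := by
  induction n with
  | zero => exact ⟨AlgHom.id k _, rfl⟩
  | succ n ih =>
    obtain ⟨f, hf⟩ := ih
    refine ⟨f.comp τ, ?_⟩
    rw [Function.iterate_succ, ← hf]
    rfl

theorem fg_top (h : Gp P ξ) : (⊤ : IntermediateField k K).FG :=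
  IntermediateField.fg_def.2 ⟨Set.range ξ, Set.finite_range _, h.top⟩

/-- the field generated by the coordinates of an iterate -/
theorem adjoin_pn (h : Gp P ξ) (n : ℕ) (f : K →ₐ[k] K) (hf : ⇑f = τ^[n]) :
    IntermediateField.adjoin k (Set.range (pn τ ξ n)) = f.fieldRange := by
  have h1 : Set.range (pn τ ξ n) = f '' Set.range ξ := by
    rw [← Set.range_comp, hf]
    rfl
  rw [h1, ← IntermediateField.adjoin_map, h.top]
  exact (AlgHom.fieldRange_eq_map f).symm

end alg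

end Pool.Agent.H2.ED
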