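import Pool.Agent.H2.ED.Chi

/-!
# Zariski dense orbits on threefolds: the second degrees on the variety and on the hypersurface
-/

set_option autoImplicit false

open MvPolynomial
open Pool.Agent.H12.ZD (pmap)
open Pool.Agent.H18.HIT Pool.Agent.H18.HX Pool.Agent.H18.VZ
open Pool.Agent.H8.TD (lc dg)

namespace Pool.Agent.H2.ED

section

variable {ν L : ℕ} {k K : Type} [Field k] [Field K] [Algebra k K] {I : Ideal (Po L k)}
  {l : Fin (ν + 2) → Po L k} {P : Po (ν + 2) k} {r : ℕ} {Δ : Po (ν + 1) k} {δ : ℕ} {ξ : Fin (ν + 2) → K}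
  {χ : Fin L → K} {Nn : Fin L → Po (ν + 2) k} {F : Tup (ν + 2) k} {τ : K →ₐ[k] K} {f : Tup L k} {d : ℕ}

/-- the iterates of the map at the generic point of the variety -/
theorem tau_chi_iter (hpro : Pro I l P r Δ δ) (hC : Chi I l Δ δ ξ χ Nn) (h : Fd P F ξ τ)
    (hF1 : aeval ξ (F 1) ≠ 0) (hf : ∀ i, (f i).IsHomogeneous d) (hs : Slf I f)
    (hF : ∀ i, (F i).IsHomogeneous (d + δ))
    (hFl : ∀ i, aeval l (up Δ) * aeval f (l i) - aeval l (F i) ∈ I) (n : ℕ) :
    aeval χ (aeval (it f n) (l 1)) ≠ 0 ∧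
      ∀ i, τ^[n] (χ i) * aeval χ (aeval (it f n) (l 1)) = aeval χ (it f n i) := by
  obtain ⟨hlam, hτ⟩ := tau_chi hpro hC h hF1 hf hs.inv hF hFl
  have hξ1 := h.gp.one
  have hl1 : l 1 ∉ I := by
    intro h0
    have h1 := (hC.iff 1 (l 1) (hpro.lin 1)).2 h0
    rw [hC.lin, hξ1] at h1
    exact one_ne_zero h1
  have hne : ∀ n, aeval χ (aeval (it f n) (l 1)) ≠ 0 := by
    intro n h0
    apply hl1
    apply (hs.it n).inj
    exact (hC.iff _ _ (aeval_hom (it_hom hf n) (hpro.lin 1))).1 h0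
  refine ⟨hne n, ?_⟩
  induction n with
  | zero =>
    intro i
    have h1 : aeval (it f 0) (l 1) = l 1 := by
      rw [it_zero, aeval_X_left_apply]
    rw [h1, hC.lin, hξ1, mul_one, it_zero, aeval_X]
    rfl
  | succ n ih =>
    intro i
    obtain ⟨c, hc⟩ : ∃ c, c = aeval χ (aeval f (l 1)) := ⟨_, rfl⟩
    rw [← hc] at hlam hτ
    have hτq : ∀ (s : ℕ) (q : Po L k), q.IsHomogeneous s →
        c ^ s * τ (aeval χ q) = aeval χ (aeval f q) := by
      intro s q hq
      have h1 : τ (aeval χ q) = aeval (fun i => τ (χ i)) q := by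
        rw [← AlgHom.comp_apply, comp_aeval]
      have h2 : (fun i => aeval χ (f i)) = fun i => c * τ (χ i) := by
        funext i
        rw [← hτ i, mul_comm]
      have h3 : aeval χ (aeval f q) = aeval (fun i => aeval χ (f i)) q := by
        rw [← AlgHom.comp_apply, comp_aeval]
      rw [h1, h3, h2, aeval_smul_hom hq]
    have h1 := congrArg τ (ih i)
    rw [map_mul, ← Function.iterate_succ_apply' τ n (χ i)] at h1
    have h2 := hτq _ _ (it_hom hf n i)
    have h3 := hτq _ _ (aeval_hom (it_hom hf n) (hpro.lin 1))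
    have h4 : it f (n + 1) i = aeval f (it f n i) := by
      rw [it_succ']
      rfl
    rw [mul_one] at h3
    rw [aeval_it_succ', h4, ← h2, ← h3, ← h1]
    ring

/-- linear forms at the generic point -/
theorem lin_chi (hC : Chi I l Δ δ ξ χ Nn) {s : Po L k} (hs : s.IsHomogeneous 1) :
    aeval ξ (up Δ) * aeval χ s = aeval ξ (aeval Nn s) := by
  have h1 := aeval_chi hC.eq hs
  rwa [pow_one] at h1

theorem quot_chi (hC : Chi I l Δ δ ξ χ Nn) {s s₀ : Po L k} (hs : s.IsHomogeneous 1)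
    (hs₀ : s₀.IsHomogeneous 1) (h0 : aeval χ s₀ ≠ 0) :
    aeval ξ (aeval Nn s₀) ≠ 0 ∧
      aeval χ s / aeval χ s₀ = aeval ξ (aeval Nn s) / aeval ξ (aeval Nn s₀) := by
  rw [← lin_chi hC hs, ← lin_chi hC hs₀, mul_div_mul_left _ _ hC.ne]
  exact ⟨mul_ne_zero hC.ne h0, rfl⟩

theorem totalDegree_Nn (hC : Chi I l Δ δ ξ χ Nn) {s : Po L k} (hs : s.IsHomogeneous 1) :
    (aeval Nn s).totalDegree ≤ 1 + δ := by
  have h1 := (hs.aeval Nn hC.hom).totalDegree_le
  rwa [mul_one] at h1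

end

end Pool.Agent.H2.ED
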