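import Pool.Agent.H8.TX.Defs

/-!
# Zariski dense orbits in dimension `ν`: definitions

`P` is a form in `X 0, ..., X (ν + 1)` which is irreducible and monic in `X 0`; `P = 0` is the cone
over a hypersurface of dimension `ν`. Affine coordinates are the quotients by `X 1`.
-/

open MvPolynomial
open Pool.Agent.H12.ZD (pmap)
open Pool.Agent.H18.HIT Pool.Agent.H18.HX Pool.Agent.H18.VZ
open Pool.Agent.H8.TD (lc dg Wsp)

namespace Pool.Agent.H2.ED

section fields

variable {ν : ℕ} {k : Type} [Field k]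

/-- the last coordinates -/
def tl {K : Type} (x : Fin (ν + 2) → K) : Fin (ν + 1) → K := fun i => x i.succ

/-- affine coordinates of a point of projective space -/
def af (y : Fin (ν + 2) → k) : Fin (ν + 2) → k := fun i => y i / y 1

/-- `η` is the generic point of the closed subset `V`, with `η 1 = 1`, in its field of rational
functions `κ`, which has transcendence degree `r` -/
structure Gv (V : Ideal (Po (ν + 2) k)) (r : ℕ) {κ : Type} [Field κ] [Algebra k κ]
    (η : Fin (ν + 2) → κ) : Prop where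
  one : η 1 = 1
  top : IntermediateField.adjoin k (Set.range η) = ⊤
  iff : ∀ (s : ℕ) (q : Po (ν + 2) k), q.IsHomogeneous s → (aeval η q = 0 ↔ q ∈ V)
  trd : Algebra.trdeg k κ = r

/-- `τ` is the composition with the rational self-map `F` of `V` -/
structure Fv (V : Ideal (Po (ν + 2) k)) (r : ℕ) (F : Tup (ν + 2) k) {κ : Type} [Field κ]
    [Algebra k κ] (η : Fin (ν + 2) → κ) (τ : κ →ₐ[k] κ) : Prop where
  gv : Gv V r η
  ne : aeval η (F 1) ≠ 0
  eq : ∀ i, τ (η i) * aeval η (F 1) = aeval η (F i)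

/-- `ξ` is the generic point of the hypersurface `P = 0`, with `ξ 1 = 1` -/
structure Gp (P : Po (ν + 2) k) {K : Type} [Field K] [Algebra k K] (ξ : Fin (ν + 2) → K) :
    Prop where
  one : ξ 1 = 1
  top : IntermediateField.adjoin k (Set.range ξ) = ⊤
  iff : ∀ (s : ℕ) (q : Po (ν + 2) k), q.IsHomogeneous s → (aeval ξ q = 0 ↔ P ∣ q)
  trd : Algebra.trdeg k K = ν

/-- `τ` is the composition with the rational self-map `F` of the hypersurface -/
structure Fd (P : Po (ν + 2) k) (F : Tup (ν + 2) k) {K : Type} [Field K] [Algebra k K]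
    (ξ : Fin (ν + 2) → K) (τ : K →ₐ[k] K) : Prop where
  gp : Gp P ξ
  eq : ∀ i, τ (ξ i) * aeval ξ (F 1) = aeval ξ (F i)

/-- the coordinates of the `n`-th iterate -/
def pn {K : Type} [Field K] [Algebra k K] (τ : K →ₐ[k] K) (ξ : Fin (ν + 2) → K) (n : ℕ) :
    Fin (ν + 2) → K := fun i => τ^[n] (ξ i)

/-- the ring `R` of the functions on the hypersurface which are regular at the generic point of `V`
and the restriction `ρ` to `V` -/
structure Lrd {K κ : Type} [Field K] [Algebra k K] [Field κ] [Algebra k κ]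
    (ξ : Fin (ν + 2) → K) (η : Fin (ν + 2) → κ) (R : Subalgebra k K) (ρ : R →ₐ[k] κ) : Prop where
  sur : Function.Surjective ρ
  mem : ∀ p : Po (ν + 2) k, aeval ξ p ∈ R
  val : ∀ (p : Po (ν + 2) k) (h : aeval ξ p ∈ R), ρ ⟨aeval ξ p, h⟩ = aeval η p
  inv : ∀ z : R, ρ z ≠ 0 → (z : K)⁻¹ ∈ R
  frc : ∀ z : R, ∃ p q : Po (ν + 2) k, aeval η q ≠ 0 ∧ (z : K) * aeval ξ q = aeval ξ p

/-- the partial derivatives of `p` with respect to the affine coordinates, times `∂P/∂X_0`, at the
generic point of `V` -/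
noncomputable def gr (P : Po (ν + 2) k) {κ : Type} [Field κ] [Algebra k κ] (η : Fin (ν + 2) → κ)
    (p : Po (ν + 2) k) : Fin ν → κ := fun j => aeval η (dd P j.succ p)

/-- the matrix of the partial derivatives of the affine coordinates of the map `T` -/
noncomputable def jm (P : Po (ν + 2) k) (T : Tup (ν + 2) k) : Matrix (Fin ν) (Fin ν) (Po (ν + 2) k) :=
  Matrix.of fun i j => dd P j.succ (T i.succ.succ) * T 1 - T i.succ.succ * dd P j.succ (T 1)

end fields

end Pool.Agent.H2.ED
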