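import Pool.Agent.H2.ED.Targets
import Pool.Agent.H14.TD.EXT
import Pool.Agent.H49.VZ.Base

/-!
# The field of rational functions of the threefold (FLD) (helper68, board tx_modules)
-/

set_option autoImplicit false

open MvPolynomial
open Pool.Agent.H12.ZD (pmap)
open Pool.Agent.H18.HIT Pool.Agent.H18.HX Pool.Agent.H18.VZ
open Pool.Agent.H8.ZA (HFam Const NA)
open Pool.Agent.H8.TD (lc dg Wsp Cop dh)
open Pool.Agent.H2.ED
open Pool.Agent.H14.TD (alg_trans)

namespace Pool.Agent.H2.ED

section general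

variable {ν : ℕ} {k : Type} [Field k]

/-- values of forms at proportional points -/
lemma aeval_mul_hom {N : ℕ} {L : Type} [Field L] [Algebra k L] {q : Po N k} {s : ℕ}
    (hq : q.IsHomogeneous s) (a : L) (x : Fin N → L) :
    aeval (fun i => a * x i) q = a ^ s * aeval x q := by
  rw [aeval_def, aeval_def, eval₂_eq', eval₂_eq', Finset.mul_sum]
  apply Finset.sum_congr rfl
  intro m hm
  have h1 : ∏ i, (a * x i) ^ m i = a ^ s * ∏ i, x i ^ m i := by
    rw [Finset.prod_congr rfl fun i _ => mul_pow a (x i) (m i), Finset.prod_mul_distrib,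
      Finset.prod_pow_eq_pow_sum]
    congr 2
    have h2 := hq (mem_support_iff.mp hm)
    rw [Finsupp.weight_apply, Finsupp.sum_fintype _ _ (fun i => by simp)] at h2
    simpa using h2
  rw [h1]
  ring

/-- homogenization -/
lemma exists_hom {N : ℕ} (c : Po N k) (hc : c ≠ 0) : ∃ (s : ℕ) (d : Po (N + 1) k), d ≠ 0 ∧
    d.IsHomogeneous s ∧ ∀ (L : Type) (_ : Field L) (_ : Algebra k L) (z : Fin N → L),
      aeval (Fin.cons 1 z : Fin (N + 1) → L) d = aeval z c := by
  have hev : ∀ (L : Type) (_ : CommRing L) (_ : Algebra k L) (z : Fin N → L),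
      aeval (Fin.cons 1 z : Fin (N + 1) → L) (∑ m ∈ c.support,
        monomial (Finsupp.cons (c.totalDegree - m.degree) m) (coeff m c)) = aeval z c := by
    intro L _ _ z
    conv_rhs => rw [c.as_sum]
    rw [map_sum, map_sum]
    refine Finset.sum_congr rfl fun m _ => ?_
    rw [aeval_monomial, aeval_monomial]
    congr 1
    rw [Finsupp.prod_fintype _ _ (fun i => pow_zero _), Finsupp.prod_fintype _ _
      (fun i => pow_zero _), Fin.prod_univ_succ]
    simp only [Fin.cons_zero, Fin.cons_succ, Finsupp.cons_succ, one_pow, one_mul]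
  refine ⟨c.totalDegree, ∑ m ∈ c.support,
    monomial (Finsupp.cons (c.totalDegree - m.degree) m) (coeff m c), ?_, ?_,
    fun L _ _ z => hev L _ _ z⟩
  · intro h0
    have h1 := hev (Po N k) inferInstance inferInstance X
    rw [h0, map_zero, aeval_X_left_apply] at h1
    exact hc h1.symm
  · refine IsHomogeneous.sum _ _ _ fun m hm => ?_
    refine isHomogeneous_monomial _ ?_
    have h1 : m.degree ≤ c.totalDegree := by
      rw [Finsupp.degree_eq_sum]
      have := le_totalDegree hm
      rwa [Finsupp.sum_fintype _ _ (fun _ => rfl)] at this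
    rw [Finsupp.degree_eq_sum, Fin.sum_univ_succ]
    simp only [Finsupp.cons_zero, Finsupp.cons_succ]
    rw [← Finsupp.degree_eq_sum]
    omega

lemma aeval_up {N : ℕ} {L : Type} [CommRing L] [Algebra k L] (c : Po N k) (x : Fin (N + 1) → L) :
    aeval x (up c) = aeval (fun i => x i.succ) c := by
  unfold up
  rw [aeval_rename]
  rfl

lemma up_hom {N : ℕ} {c : Po N k} {s : ℕ} (hc : c.IsHomogeneous s) : (up c).IsHomogeneous s :=
  hc.rename_isHomogeneous

/-- the field of the cone -/
lemma ex_L {P : Po (ν + 2) k} {F : Tup (ν + 2) k} {r : ℕ} (hP : Hyp P r) (hS : Slf (Ideal.span {P}) F) :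
    ∃ (L : Type) (_ : Field L) (_ : Algebra k L) (x : Fin (ν + 2) → L) (tL : L →ₐ[k] L),
      (∀ q : Po (ν + 2) k, aeval x q = 0 ↔ P ∣ q) ∧ ∀ i, tL (x i) = aeval x (F i) := by
  have hprime : (Ideal.span {P}).IsPrime :=
    (Ideal.span_singleton_prime hP.irr.ne_zero).2 hP.irr.prime
  have hdom : IsDomain (Po (ν + 2) k ⧸ Ideal.span {P}) := Ideal.Quotient.isDomain _
  let ψ : Po (ν + 2) k →ₐ[k] FractionRing (Po (ν + 2) k ⧸ Ideal.span {P}) :=
    (IsScalarTower.toAlgHom k (Po (ν + 2) k ⧸ Ideal.span {P})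
      (FractionRing (Po (ν + 2) k ⧸ Ideal.span {P}))).comp (Ideal.Quotient.mkₐ k (Ideal.span {P}))
  have hψ : ∀ q : Po (ν + 2) k, ψ q = algebraMap (Po (ν + 2) k ⧸ Ideal.span {P})
      (FractionRing (Po (ν + 2) k ⧸ Ideal.span {P})) (Ideal.Quotient.mk _ q) := fun q => rfl
  have hψ0 : ∀ q : Po (ν + 2) k, ψ q = 0 ↔ q ∈ Ideal.span {P} := by
    intro q
    rw [hψ, map_eq_zero_iff _ (IsFractionRing.injective _ _), Ideal.Quotient.eq_zero_iff_mem]
  have hx : ∀ q : Po (ν + 2) k, aeval (fun i => ψ (X i)) q = ψ q := by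
    intro q
    rw [← comp_aeval_apply, aeval_X_left_apply]
  let φ : Po (ν + 2) k →ₐ[k] FractionRing (Po (ν + 2) k ⧸ Ideal.span {P}) := aeval fun i => ψ (F i)
  have hφ : ∀ q : Po (ν + 2) k, φ q = ψ (aeval F q) := by
    intro q
    rw [comp_aeval_apply]
  have hkill : ∀ a ∈ Ideal.span {P}, φ a = 0 := by
    intro a ha
    rw [hφ, hψ0]
    exact hS.inv a ha
  let g : (Po (ν + 2) k ⧸ Ideal.span {P}) →ₐ[k] FractionRing (Po (ν + 2) k ⧸ Ideal.span {P}) :=
    Ideal.Quotient.liftₐ (Ideal.span {P}) φ hkill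
  have hg : ∀ q : Po (ν + 2) k, g (Ideal.Quotient.mk _ q) = φ q := fun q => rfl
  have hinj : Function.Injective g := by
    rw [injective_iff_map_eq_zero]
    intro a ha
    obtain ⟨q, rfl⟩ := Ideal.Quotient.mk_surjective a
    rw [hg, hφ, hψ0] at ha
    rw [Ideal.Quotient.eq_zero_iff_mem]
    exact hS.inj q ha
  refine ⟨FractionRing (Po (ν + 2) k ⧸ Ideal.span {P}), inferInstance, inferInstance,
    fun i => ψ (X i), IsFractionRing.liftAlgHom hinj, ?_, ?_⟩
  · intro q
    rw [hx, hψ0, Ideal.mem_span_singleton]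
  · intro i
    rw [hx]
    have h1 : (IsFractionRing.liftAlgHom hinj : FractionRing (Po (ν + 2) k ⧸ Ideal.span {P}) →ₐ[k]
        FractionRing (Po (ν + 2) k ⧸ Ideal.span {P})) (algebraMap _ _ (Ideal.Quotient.mk _ (X i))) =
        g (Ideal.Quotient.mk _ (X i)) := IsFractionRing.lift_algebraMap hinj _
    have h2 : g (Ideal.Quotient.mk _ (X i)) = ψ (F i) := by
      rw [hg]
      show aeval (fun i => ψ (F i)) (X i) = ψ (F i)
      rw [aeval_X]
    exact h1.trans h2

/-- the field of the threefold, the part without the map -/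
lemma core_gp {P : Po (ν + 2) k} {r : ℕ} (hP : Hyp P r) {L : Type} [Field L] [Algebra k L]
    (x : Fin (ν + 2) → L) (hx : ∀ q : Po (ν + 2) k, aeval x q = 0 ↔ P ∣ q)
    (ξ : Fin (ν + 2) → IntermediateField.adjoin k (Set.range fun i => x i / x 1))
    (hξ : ∀ i, (ξ i : L) = x i / x 1) :
    x 1 ≠ 0 ∧ (∀ (s : ℕ) (q : Po (ν + 2) k), q.IsHomogeneous s →
      ((aeval ξ q : IntermediateField.adjoin k (Set.range fun i => x i / x 1)) : L) =
        (x 1)⁻¹ ^ s * aeval x q) ∧ Gp P ξ := by
  have hx1 : x 1 ≠ 0 := by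
    intro h0
    have h1 : aeval x (up (X 0 : Po (ν + 1) k)) = 0 := by
      rw [aeval_up, aeval_X]
      exact h0
    exact Pool.Agent.H49.VZ.not_dvd_up hP (X_ne_zero (0 : Fin (ν + 1))) ((hx _).1 h1)
  have hval : ∀ (s : ℕ) (q : Po (ν + 2) k), q.IsHomogeneous s →
      ((aeval ξ q : IntermediateField.adjoin k (Set.range fun i => x i / x 1)) : L) =
        (x 1)⁻¹ ^ s * aeval x q := by
    intro s q hq
    have h1 : ((aeval ξ q : IntermediateField.adjoin k (Set.range fun i => x i / x 1)) : L) =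
        aeval (fun i => (ξ i : L)) q := comp_aeval_apply ξ
          (IntermediateField.adjoin k (Set.range fun i => x i / x 1)).val q
    rw [h1, ← aeval_mul_hom hq]
    congr 2
    funext i
    rw [hξ, div_eq_inv_mul]
  have hone : ξ 1 = 1 := by
    apply Subtype.ext
    rw [hξ, div_self hx1]
    rfl
  have htop : IntermediateField.adjoin k (Set.range ξ) = ⊤ := by
    rw [eq_top_iff]
    rintro ⟨y, hy⟩ -
    induction hy using IntermediateField.adjoin_induction with
    | mem y hy =>
      obtain ⟨i, rfl⟩ := hy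
      have : (⟨x i / x 1, IntermediateField.subset_adjoin _ _ ⟨i, rfl⟩⟩ :
          IntermediateField.adjoin k (Set.range fun i => x i / x 1)) = ξ i :=
        Subtype.ext (hξ i).symm
      rw [this]
      exact IntermediateField.subset_adjoin _ _ ⟨i, rfl⟩
    | algebraMap c => exact IntermediateField.algebraMap_mem _ c
    | add y z hy hz h1 h2 => exact add_mem h1 h2
    | inv y hy h1 => exact inv_mem h1
    | mul y z hy hz h1 h2 => exact mul_mem h1 h2
  have hiff : ∀ (s : ℕ) (q : Po (ν + 2) k), q.IsHomogeneous s → (aeval ξ q = 0 ↔ P ∣ q) := by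
    intro s q hq
    rw [← hx q]
    have h1 : aeval ξ q = 0 ↔
        ((aeval ξ q : IntermediateField.adjoin k (Set.range fun i => x i / x 1)) : L) = 0 :=
      ZeroMemClass.coe_eq_zero.symm
    rw [h1, hval s q hq, mul_eq_zero]
    constructor
    · rintro (h | h)
      · exact absurd h (pow_ne_zero _ (inv_ne_zero hx1))
      · exact h
    · exact Or.inr
  refine ⟨hx1, hval, hone, htop, hiff, ?_⟩
  -- the transcendence degree
  have hsucc : (fun i : Fin (ν + 1) => ξ i.succ) =
      Fin.cons 1 (fun j : Fin ν => ξ j.succ.succ) := by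
    funext i
    refine Fin.cases ?_ (fun j => ?_) i
    · rw [Fin.cons_zero]
      exact hone
    · rw [Fin.cons_succ]
  have hind : AlgebraicIndependent k (fun j : Fin ν => ξ j.succ.succ) := by
    rw [algebraicIndependent_iff]
    intro c hc
    by_contra hc0
    obtain ⟨s, d, hd0, hds, hd⟩ := exists_hom c hc0
    have h1 : aeval ξ (up d) = 0 := by
      rw [aeval_up, hsucc, hd _ _ _ _]
      exact hc
    exact Pool.Agent.H49.VZ.not_dvd_up hP hd0 ((hiff s _ (up_hom hds)).1 h1)
  have halg0 : IsAlgebraic (Algebra.adjoin k (Set.range fun j : Fin ν => ξ j.succ.succ))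
      (ξ 0) := by
    set R0 := Algebra.adjoin k (Set.range fun j : Fin ν => ξ j.succ.succ) with hR0
    let z : Fin (ν + 1) → R0 := Fin.cons 1 (fun j => ⟨ξ j.succ.succ,
      Algebra.subset_adjoin ⟨j, rfl⟩⟩)
    have hz : (fun i => (R0.val (z i))) = fun i : Fin (ν + 1) => ξ i.succ := by
      rw [hsucc]
      funext i
      refine Fin.cases ?_ (fun j => ?_) i
      · rw [Fin.cons_zero]
        exact map_one _
      · rw [Fin.cons_succ]
        rfl
    let p : Polynomial R0 := (finSuccEquiv k (ν + 1) P).map (aeval z : Po (ν + 1) k →ₐ[k] R0).toRingHom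
    have hmon : p.Monic := by
      have : (finSuccEquiv k (ν + 1) P).Monic := hP.mon
      exact this.map _
    refine IsIntegral.isAlgebraic ⟨p, hmon, ?_⟩
    have h1 : aeval ξ P = 0 := (hiff r P hP.hom).2 (dvd_refl P)
    rw [Polynomial.eval₂_map]
    have h2 : ∀ q : Po (ν + 2) k, (finSuccEquiv k (ν + 1) q).eval₂
        ((algebraMap R0 _).comp (aeval z : Po (ν + 1) k →ₐ[k] R0).toRingHom) (ξ 0) = aeval ξ q := by
      intro q
      induction q using MvPolynomial.induction_on with
      | C a =>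
        rw [finSuccEquiv_apply]
        simp
      | add p q hp hq => rw [map_add, Polynomial.eval₂_add, hp, hq, map_add]
      | mul_X p i hp =>
        rw [map_mul, Polynomial.eval₂_mul, hp, map_mul, aeval_X]
        congr 1
        refine Fin.cases ?_ (fun j => ?_) i
        · rw [finSuccEquiv_X_zero, Polynomial.eval₂_X]
        · rw [finSuccEquiv_X_succ, Polynomial.eval₂_C]
          have h3 := congrFun hz j
          show R0.val (aeval z (X j)) = ξ j.succ
          rw [aeval_X]
          exact h3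
    rw [h2, h1]
  have halg : Algebra.IsAlgebraic
      (Algebra.adjoin k (Set.range fun j : Fin ν => ξ j.succ.succ))
      (IntermediateField.adjoin k (Set.range fun i => x i / x 1)) := by
    refine alg_trans _ ξ ?_ ?_
    · rw [htop]
      infer_instance
    · intro i
      refine Fin.cases halg0 (fun j => ?_) i
      refine Fin.cases ?_ (fun l => ?_) j
      · show IsAlgebraic _ (ξ 1)
        rw [hone]
        exact isAlgebraic_one
      · exact isAlgebraic_algebraMap (⟨ξ l.succ.succ, Algebra.subset_adjoin ⟨l, rfl⟩⟩ :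
          Algebra.adjoin k (Set.range fun j : Fin ν => ξ j.succ.succ))
  have hb : IsTranscendenceBasis k (fun j : Fin ν => ξ j.succ.succ) :=
    hind.isTranscendenceBasis_iff_isAlgebraic.2 halg
  rw [← hb.cardinalMk_eq_trdeg]
  simp

theorem pf_FLD : T_FLD := by
  intro ν r d k _ _ P F hP hF hS
  obtain ⟨L, i1, i2, x, tL, hx, htL⟩ := ex_L hP hS
  let K := IntermediateField.adjoin k (Set.range fun i => x i / x 1)
  let ξ : Fin (ν + 2) → K := fun i => ⟨x i / x 1, IntermediateField.subset_adjoin _ _ ⟨i, rfl⟩⟩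
  obtain ⟨hx1, hval, hgp⟩ := core_gp hP x hx ξ (fun i => rfl)
  have hF1 : aeval x (F 1) ≠ 0 := by
    intro h0
    have h1 : aeval F (X 1 : Po (ν + 2) k) ∈ Ideal.span {P} := by
      rw [aeval_X, Ideal.mem_span_singleton]
      exact (hx _).1 h0
    have h2 := hS.inj _ h1
    rw [Ideal.mem_span_singleton, ← hx, aeval_X] at h2
    exact hx1 h2
  have htx : ∀ i, tL (x i / x 1) = ((aeval ξ (F i) : K) : L) / ((aeval ξ (F 1) : K) : L) := by
    intro i
    rw [map_div₀, htL, htL, hval d _ (hF i), hval d _ (hF 1),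
      mul_div_mul_left _ _ (pow_ne_zero _ (inv_ne_zero hx1))]
  have hmap : K ≤ K.comap tL := by
    show IntermediateField.adjoin k (Set.range fun i => x i / x 1) ≤ _
    rw [IntermediateField.adjoin_le_iff]
    rintro _ ⟨i, rfl⟩
    show tL (x i / x 1) ∈ K
    rw [htx i]
    exact div_mem (aeval ξ (F i) : K).2 (aeval ξ (F 1) : K).2
  let τ : K →ₐ[k] K := AlgHom.codRestrict (tL.comp K.val) K.toSubalgebra (fun y => hmap y.2)
  have hτ : ∀ y : K, ((τ y : K) : L) = tL y := fun y => rfl
  refine ⟨K, inferInstance, inferInstance, ξ, τ, hgp, ?_⟩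
  intro i
  apply Subtype.ext
  have h1 : ((τ (ξ i) * aeval ξ (F 1) : K) : L) = tL (x i / x 1) *
      ((aeval ξ (F 1) : K) : L) := rfl
  rw [h1, htx i, div_mul_cancel₀]
  rw [hval d _ (hF 1)]
  exact mul_ne_zero (pow_ne_zero _ (inv_ne_zero hx1)) hF1

end general

end Pool.Agent.H2.ED
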