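import Pool.Agent.H2.ED.Vlm
import Pool.Agent.H2.ED.Rec1
import Pool.Agent.H8.TD.All
import Pool.Agent.H14.TD.EXT

/-!
# Zariski dense orbits in dimension `ν`: the bound for the topological degree
-/

set_option autoImplicit false

open MvPolynomial
open Pool.Agent.H12.ZD (pmap)
open Pool.Agent.H18.HIT Pool.Agent.H18.HX Pool.Agent.H18.VZ
open Pool.Agent.H8.TD (lc dg Wsp lc_single)

namespace Pool.Agent.H2.ED

section

variable {ν r₀ r d : ℕ} {k K κ : Type} [Field k] [CharZero k] [Field K] [Algebra k K]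
  [Field κ] [Algebra k κ] {P : Po (ν + 2) k} {V : Ideal (Po (ν + 2) k)}
  {F T : Tup (ν + 2) k} {ξ : Fin (ν + 2) → K} {η : Fin (ν + 2) → κ} {τ : K →ₐ[k] K}
  {τV : κ →ₐ[k] κ}

/-- the iterates in the function field -/
theorem fd_it (h : Fd P F ξ τ) (hP : Hyp P r₀) (hF : ∀ i, (F i).IsHomogeneous d)
    (hs : Slf (Ideal.span {P}) F) (m : ℕ) (f : K →ₐ[k] K) (hf : ⇑f = τ^[m]) :
    Fd P (it F m) ξ f := by
  obtain ⟨h1, h2⟩ := pn_eq h hP hF hs m
  refine ⟨h.gp, fun i => ?_⟩
  have h3 : f (ξ i) = pn τ ξ m i := by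
    rw [hf]
    rfl
  rw [h3, h2, div_mul_cancel₀ _ h1]

/-- a transcendence basis among the coordinates -/
theorem exists_coord (h : Gv V r η) : ∃ a : Fin r → Fin (ν + 2),
    AlgebraicIndependent k (fun i => η (a i)) ∧ 1 ≤ dg k (Set.range fun i => η (a i)) := by
  classical
  have halg : Algebra.IsAlgebraic (Algebra.adjoin k (Set.range η)) κ := by
    have h1 : Algebra.IsAlgebraic (IntermediateField.adjoin k (Set.range η)) κ := by
      rw [h.top]
      exact ⟨fun x => isAlgebraic_algebraMap (⟨x, trivial⟩ : (⊤ : IntermediateField k κ))⟩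
    exact IntermediateField.isAlgebraic_adjoin_iff_top.1 h1
  obtain ⟨s, hs, hb⟩ := exists_isTranscendenceBasis_subset (R := k) (A := κ) (Set.range η)
  have hfin : s.Finite := (Set.finite_range η).subset hs
  have hcard : Nat.card s = r := by
    have h1 := hb.cardinalMk_eq_trdeg
    rw [h.trd] at h1
    rw [Nat.card, h1, Cardinal.toNat_natCast]
  have := hfin.to_subtype
  obtain ⟨e⟩ : Nonempty (Fin r ≃ s) := by
    rw [← hcard]
    exact ⟨(Finite.equivFin s).symm⟩
  have h1 : ∀ i, ∃ a, η a = (e i : κ) := fun i => hs (e i).2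
  choose a ha using h1
  have h2 : (fun i => η (a i)) = fun i => (e i : κ) := funext ha
  have hbi : IsTranscendenceBasis k (fun i => (e i : κ)) := hb.comp_equiv e
  refine ⟨a, ?_, ?_⟩
  · rw [h2]
    exact hbi.1
  · rw [h2]
    have h3 : (⊤ : IntermediateField k κ).FG :=
      IntermediateField.fg_def.2 ⟨Set.range η, Set.finite_range _, h.top⟩
    have h4 : FiniteDimensional (IntermediateField.adjoin k (Set.range fun i => (e i : κ))) κ :=
      Pool.Agent.H14.TD.fin_of_alg h3 _ hbi.isAlgebraic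
    exact Module.finrank_pos

theorem iterate_inj (σ : κ →ₐ[k] κ) (l : ℕ) : Function.Injective (σ^[l]) :=
  σ.toRingHom.injective.iterate l

/-- the degree of the iterates on `V` -/
theorem deg_iter {e l : ℕ} (he : e ≤ Module.finrank τV.fieldRange κ)
    {a : Fin r → Fin (ν + 2)} (ha : AlgebraicIndependent k (fun i => η (a i)))
    (ha' : 1 ≤ dg k (Set.range fun i => η (a i))) :
    AlgebraicIndependent k (fun i => τV^[l] (η (a i))) ∧
      e ^ l ≤ dg k (Set.range fun i => τV^[l] (η (a i))) := by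
  obtain ⟨f, hf⟩ := iter_algHomX τV l
  have h1 : (fun i => τV^[l] (η (a i))) = fun i => f (η (a i)) := by
    rw [hf]
  constructor
  · rw [h1]
    exact ha.map' (f := f) f.toRingHom.injective
  · have h2 : (Set.range fun i => τV^[l] (η (a i))) = τV^[l] '' Set.range fun i => η (a i) := by
      rw [← Set.range_comp]
      rfl
    rw [h2, Pool.Agent.H8.TD.Al.pbk k κ τV l]
    calc e ^ l = e ^ l * 1 := (mul_one _).symm
      _ ≤ _ := Nat.mul_le_mul (Nat.pow_le_pow_left he l) ha'

/-- values of forms at the iterates -/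
theorem iter_aeval (τ : K →ₐ[k] K) (n : ℕ) (q : Po (ν + 2) k) :
    τ^[n] (aeval ξ q) = aeval (pn τ ξ n) q := by
  obtain ⟨f, hf⟩ := iter_algHomX τ n
  have h1 : pn τ ξ n = fun i => f (ξ i) := by
    funext i
    rw [hf]
    rfl
  rw [h1, ← hf, ← AlgHom.comp_apply, comp_aeval]

/-- the upper bound for the degree over the functions given by the lemma on totally invariant
subsets -/
theorem gbd (hINM : T_INM) (hG : Gp P ξ) (hr : r + 2 ≤ ν) {m Y s : ℕ}
    (hY : ∀ s : Fin ν → Fin (ν + 2) → k, dg k (Set.range fun i : Fin ν =>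
      if (i : ℕ) < 2 then lc (s i) ξ else lc (s i) (pn τ ξ m)) ≤ Y)
    {σ : K →ₐ[k] K} {l : ℕ} (hσ : σ^[l] = τ^[m]) (g : Fin (ν - r) → Po (ν + 2) k)
    (hg : ∀ i, (g i).IsHomogeneous s) (a : Fin r → Fin (ν + 2)) :
    dg k (Set.range (wfn σ ξ g l (ν - r - 2)) ∪ Set.range (fun i => pn τ ξ m (a i))) ≤
      (s + 1) ^ ν * Y := by
  classical
  obtain ⟨φ, hφ⟩ : ∃ φ : Fin ν → Fin (ν + 2) → K, φ = fun i : Fin ν =>
    if (i : ℕ) < 2 then ξ else pn τ ξ m := ⟨_, rfl⟩
  obtain ⟨p, hp⟩ : ∃ p : Fin ν → Po (ν + 2) k, p = fun i : Fin ν =>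
    if h1 : (i : ℕ) < 2 then g ⟨i + (ν - r - 2), by omega⟩ else
      if h2 : (i : ℕ) < ν - r then g ⟨(i : ℕ) - 2, by omega⟩ else
        X (a ⟨(i : ℕ) - (ν - r), by have := i.2; omega⟩) := ⟨_, rfl⟩
  have hφ0 : ∀ i : Fin ν, (i : ℕ) < 2 → φ i = ξ := fun i hi => by
    rw [hφ]
    exact if_pos hi
  have hφ1 : ∀ i : Fin ν, 2 ≤ (i : ℕ) → φ i = pn τ ξ m := fun i hi => by
    rw [hφ]
    exact if_neg (by omega)
  have hp0 : ∀ (i : Fin ν) (j : Fin (ν - r)), (i : ℕ) < 2 → (j : ℕ) = i + (ν - r - 2) →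
      p i = g j := by
    intro i j hi hj
    rw [hp]
    simp only
    rw [dif_pos hi]
    congr 1
    exact Fin.ext hj.symm
  have hp1 : ∀ (i : Fin ν) (j : Fin (ν - r)), 2 ≤ (i : ℕ) → (i : ℕ) = j + 2 →
      (j : ℕ) < ν - r - 2 → p i = g j := by
    intro i j hi hj hj2
    rw [hp]
    simp only
    rw [dif_neg (by omega), dif_pos (by omega)]
    congr 1
    exact Fin.ext (by simp only; omega)
  have hp2 : ∀ (i : Fin ν) (j : Fin r), (i : ℕ) = j + (ν - r) → p i = X (a j) := by
    intro i j hj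
    rw [hp]
    simp only
    rw [dif_neg (by omega), dif_neg (by omega)]
    congr 2
    exact Fin.ext (by simp only; omega)
  have hset : Set.range (wfn σ ξ g l (ν - r - 2)) ∪ Set.range (fun i => pn τ ξ m (a i)) =
      Set.range fun i => aeval (φ i) (p i) / aeval (φ i) (1 : Po (ν + 2) k) := by
    ext x
    constructor
    · rintro (⟨i, rfl⟩ | ⟨i, rfl⟩)
      · have hi2 := i.2
        rcases Nat.lt_or_ge (i : ℕ) (ν - r - 2) with hi | hi
        · refine ⟨⟨i + 2, by omega⟩, ?_⟩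
          simp only [wfn]
          rw [if_pos hi, hφ1 _ (Nat.le_add_left 2 _), hp1 _ i (Nat.le_add_left 2 _) rfl hi,
            map_one, div_one, hσ, iter_aeval]
        · refine ⟨⟨i - (ν - r - 2), by omega⟩, ?_⟩
          have h1 : ((⟨(i : ℕ) - (ν - r - 2), by omega⟩ : Fin ν) : ℕ) < 2 := by
            simp only
            omega
          simp only [wfn]
          rw [if_neg (by omega), hφ0 _ h1, hp0 _ i h1 (by simp only; omega), map_one, div_one]
      · have hi2 := i.2
        refine ⟨⟨i + (ν - r), by omega⟩, ?_⟩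
        simp only
        rw [hφ1 _ (by simp only; omega), hp2 _ i rfl, map_one, div_one, aeval_X]
    · rintro ⟨i, rfl⟩
      have hi3 := i.2
      simp only
      rcases Nat.lt_or_ge (i : ℕ) 2 with hi | hi
      · left
        refine ⟨⟨i + (ν - r - 2), by omega⟩, ?_⟩
        rw [hφ0 i hi, hp0 i ⟨i + (ν - r - 2), by omega⟩ hi rfl, map_one, div_one, wfn,
          if_neg (by simp)]
      · rcases Nat.lt_or_ge (i : ℕ) (ν - r) with hi2 | hi2
        · left
          refine ⟨⟨(i : ℕ) - 2, by omega⟩, ?_⟩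
          rw [hφ1 i hi, hp1 i ⟨(i : ℕ) - 2, by omega⟩ hi (by simp only; omega)
            (by simp only; omega), map_one, div_one, wfn, if_pos (by simp only; omega), hσ, iter_aeval]
        · right
          refine ⟨⟨(i : ℕ) - (ν - r), by omega⟩, ?_⟩
          rw [hφ1 i hi, hp2 i ⟨(i : ℕ) - (ν - r), by omega⟩ (by simp only; omega), map_one,
            div_one, aeval_X]
  rw [hset]
  have h1 := hINM k K ν (ν + 2) Y φ p (fun _ => 1) (fun _ => s + 1)
    (IntermediateField.fg_def.2 ⟨Set.range ξ, Set.finite_range _, hG.top⟩) hG.trd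
    (fun s' => by
      have h2 := hY s'
      have h3 : (fun i : Fin ν => lc (s' i) (φ i)) = fun i : Fin ν =>
          if (i : ℕ) < 2 then lc (s' i) ξ else lc (s' i) (pn τ ξ m) := by
        funext i
        rw [hφ]
        simp only
        split_ifs <;> rfl
      rw [h3]
      exact h2)
    (fun i => by
      rw [hp]
      simp only
      split_ifs
      · exact (hg _).totalDegree_le.trans (Nat.le_succ s)
      · exact (hg _).totalDegree_le.trans (Nat.le_succ s)
      · exact (isHomogeneous_X k _).totalDegree_le.trans (Nat.le_add_left 1 s))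
    (fun i => by
      rw [totalDegree_one]
      exact Nat.zero_le _)
    (fun i => by
      rw [map_one]
      exact one_ne_zero)
  rw [Finset.prod_const, Finset.card_univ, Fintype.card_fin] at h1
  exact h1

/-- the numbers -/
theorem gnum {e : ℕ} {μ C : ℝ} (hμ0 : 0 ≤ μ) (hμ : μ < e) {m₀ : ℕ} (hm₀ : 1 ≤ m₀) {B : ℝ}
    (h : ∀ l : ℕ, ((e ^ m₀ : ℕ) : ℝ) ^ l ≤ B * (C * μ ^ (m₀ * l))) : False := by
  rcases hμ0.eq_or_lt with h0 | h0
  · have h1 := h 1
    rw [← h0, pow_one, zero_pow (by omega), mul_zero, mul_zero] at h1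
    have h2 : (0 : ℝ) < ((e ^ m₀ : ℕ) : ℝ) := by
      push_cast
      apply pow_pos
      rw [h0]
      exact hμ
    linarith
  · have h1 : 1 < (e : ℝ) / μ := by
      rw [one_lt_div h0]
      exact hμ
    have h2 : 1 < ((e : ℝ) / μ) ^ m₀ := one_lt_pow₀ h1 (by omega)
    obtain ⟨l, hl⟩ := pow_unbounded_of_one_lt (B * C) h2
    have h3 := h l
    have h4 : (((e : ℝ) / μ) ^ m₀) ^ l * (μ ^ m₀) ^ l = ((e : ℝ) ^ m₀) ^ l := by
      rw [← mul_pow, ← mul_pow, div_mul_cancel₀ _ h0.ne']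
    have h5 : 0 < (μ ^ m₀) ^ l := pow_pos (pow_pos h0 _) _
    have h6 := mul_lt_mul_of_pos_right hl h5
    rw [h4, ← pow_mul μ] at h6
    push_cast at h3
    rw [← mul_assoc] at h3
    linarith

end

end Pool.Agent.H2.ED
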