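import Pool.Agent.H2.ED.Vlm
import Pool.Agent.H2.ED.Gam1
import Pool.Agent.H18.VZ.FinZZ
import Pool.Agent.H43.ED.CHN
import Pool.Agent.H43.ED.JCB
import Pool.Agent.H68.ED.DRV
import Pool.Agent.H68.ED.LRG
import Pool.Agent.H65.ED.FLV
import Pool.Agent.H65.ED.TIV
import Pool.Agent.H73.ED.INM
import Pool.Agent.H89.ED.JPR
import Pool.Agent.H20.ED.KSP
import Pool.Agent.H7.ED.RES
import Pool.Agent.H46.ED.TRV
import Pool.Agent.H5.ED.XCH
import Pool.Agent.H45.ED.VDM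
import Pool.Agent.H17.ED.FDM
import Pool.Agent.H2.ED.FLD

/-!
# Zariski dense orbits in dimension `ν`: large topological degree, hypersurfaces
-/

set_option autoImplicit false

open MvPolynomial
open Pool.Agent.H12.ZD (pmap)
open Pool.Agent.H18.HIT Pool.Agent.H18.HX Pool.Agent.H18.VZ
open Pool.Agent.H8.TD (lc dg Wsp)

namespace Pool.Agent.H2.ED

section

variable {ν : ℕ} {k : Type} [Field k]

/-- the jacobian determinant is a form -/
theorem jm_hom {r d : ℕ} {P : Po (ν + 2) k} {T : Tup (ν + 2) k} (hP : P.IsHomogeneous r)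
    (hT : ∀ i, (T i).IsHomogeneous d) : ∃ D, (jm P T).det.IsHomogeneous D := by
  have h1 : ∀ (j : Fin (ν + 1)) (i : Fin (ν + 2)),
      (dd P j (T i)).IsHomogeneous ((r - 1) + (d - 1)) := by
    intro j i
    unfold dd
    rw [Derivation.sub_apply, Derivation.smul_apply, Derivation.smul_apply, smul_eq_mul,
      smul_eq_mul]
    exact (hP.pderiv.mul (hT i).pderiv).sub (hP.pderiv.mul (hT i).pderiv)
  refine ⟨ν * ((r - 1) + (d - 1) + d), det_homogeneous _ _ fun i j => ?_⟩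
  have h2 := (h1 j.succ i.succ.succ).mul (hT 1)
  have h3 := (hT i.succ.succ).mul (h1 j.succ 1)
  rw [Nat.add_comm d] at h3
  exact h2.sub h3

end

/-- the facts of this folder -/
theorem vlm' {ν r₀ r d : ℕ} {k K κ : Type} [Field k] [CharZero k] [Field K] [Algebra k K]
    [Field κ] [Algebra k κ] {P : Po (ν + 2) k} {V : Ideal (Po (ν + 2) k)} {T : Tup (ν + 2) k}
    {ξ : Fin (ν + 2) → K} {η : Fin (ν + 2) → κ} {τ : K →ₐ[k] K} {τV : κ →ₐ[k] κ}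
    (hP : Hyp P r₀) (hV : V.IsPrime) (hH : Hmi V)
    (hPV : P ∈ V) (hT : ∀ i, (T i).IsHomogeneous d) (hinv : ∀ q, aeval T q ∈ V ↔ q ∈ V)
    (hfd : Fd P T ξ τ) (hfv : Fv V r T η τV) (h0 : aeval η (pderiv 0 P) ≠ 0)
    (hj : aeval η (jm P T).det ≠ 0) {R : Subalgebra k K} {ρ : R →ₐ[k] κ} (hR : Lrd ξ η R ρ) :
    r ≤ ν ∧ (∀ (l : ℕ) (z : R), ∃ z' : R, (z' : K) = τ^[l] z ∧ ρ z' = τV^[l] (ρ z)) ∧
    ∃ s : ℕ, ∀ l p : ℕ, p ≤ ν - r → ∃ g : Fin (ν - r) → Po (ν + 2) k,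
      (∀ i, (g i).IsHomogeneous s) ∧
      ∀ y : Fin r → R, AlgebraicIndependent k (fun i => ρ (y i)) →
        dg k (Set.range fun i => ρ (y i)) ≤
          dg k (Set.range (wfn τ ξ g l p) ∪ Set.range (fun i => (y i : K))) :=
  vlm Pool.Agent.H68.ED.pf_DRV Pool.Agent.H43.ED.pf_JCB Pool.Agent.H46.ED.pf_TRV
    Pool.Agent.H20.ED.pf_KSP Pool.Agent.H43.ED.pf_CHN Pool.Agent.H7.ED.pf_RES
    Pool.Agent.H5.ED.pf_XCH Pool.Agent.H17.ED.pf_FDM hP hV hH hPV hT hinv hfd hfv h0 hj hR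

/-- polynomials in the coordinates after the first which exclude a hypersurface -/
theorem nrx_ne {ν r : ℕ} {k : Type} [Field k] {P c : Po (ν + 2) k} (hP : Hyp P r)
    (hc : ¬ P ∣ c) : ∃ c' : Po (ν + 1) k, c' ≠ 0 ∧ ∀ x : Fin (ν + 2) → k, eval x P = 0 →
      eval x (up c') ≠ 0 → eval x c ≠ 0 := by
  obtain ⟨c', A', hc'0, hc'⟩ := All.nrx (ν + 1) k P c hP.irr hP.mon hc
  refine ⟨c', hc'0, fun x hxP hx h0 => hx ?_⟩
  obtain ⟨B', hB'⟩ := hc'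
  have h1 := congrArg (eval x) hB'
  rw [map_sub, map_mul, map_mul (eval x) P, hxP, h0, zero_mul, zero_mul, sub_zero] at h1
  exact h1

/-- **large topological degree, hypersurfaces**: two of the linear systems are taken at the point
itself -/
theorem gam (k : Type) [Field k] [IsAlgClosed k] [CharZero k] (hk : Pool.Agent.H18.VP.Ftd k)
    {ν r d e : ℕ} {μ C : ℝ} {P b : Po (ν + 2) k} {F : Tup (ν + 2) k} (hP : Hyp P r) (hrd : r ≤ d)
    (hd : 2 ≤ d) (hF : ∀ i, (F i).IsHomogeneous d) (hs : Slf (Ideal.span {P}) F) (hNI : NIv P F)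
    (hcv : Cvi (Ideal.span {P}) F (d * e)) (hμ0 : 0 ≤ μ) (hμ : μ < e)
    (hdg : ∀ (K : Type) [Field K] [Algebra k K] (ξ : Fin (ν + 2) → K) (τ : K →ₐ[k] K),
      Fd P F ξ τ → ∀ (m : ℕ) (s : Fin ν → Fin (ν + 2) → k), (dg k (Set.range fun i : Fin ν =>
        if (i : ℕ) < 2 then lc (s i) ξ else lc (s i) (pn τ ξ m)) : ℝ) ≤ C * μ ^ m)
    (hb : ∃ m, b.IsHomogeneous m) (hPb : ¬ P ∣ b) :
    ∃ x : Fin (ν + 2) → k, eval x P = 0 ∧ (∀ n : ℕ, eval ((pmap F)^[n] x) b ≠ 0) ∧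
      ∀ c : Po (ν + 2) k, (∀ n : ℕ, eval ((pmap F)^[n] x) c = 0) → P ∣ c := by
  classical
  have hpr := hP.irr.prime
  have hprime := isPrime_span hP.irr
  have hX1 : ¬ P ∣ (X 1 : Po (ν + 2) k) := not_dvd_X1 hP
  obtain ⟨mb, hmb⟩ := hb
  obtain ⟨m, hm, hcor⟩ := Facts.cor k hk (ν + 1) r d P (b * X 1) F (by omega) hP hrd hF hs
    ⟨mb + 1, hmb.mul (isHomogeneous_X _ _)⟩ (fun h => (hpr.dvd_or_dvd h).elim hPb hX1)
  have hsT : Slf (Ideal.span {P}) (it F m) := hs.it m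
  have hThom : ∀ i, (it F m i).IsHomogeneous (d ^ m) := it_hom hF m
  have hNT : NIv P (it F m) := Facts.niv (ν + 1) r d m k P F hP hF hs hm hNI
  have hD2 : 2 ≤ d ^ m := by
    calc 2 ≤ d := hd
      _ = d ^ 1 := (pow_one d).symm
      _ ≤ d ^ m := Nat.pow_le_pow_right (by omega) hm
  obtain ⟨E, θ, Δ, hB, hcv'⟩ := Facts.bas (ν + 1) k P (it F m) hP.irr hP.mon hsT
  obtain ⟨g₁, hg₁, hinv⟩ := Facts.inv (ν + 1) r (d ^ m) E k P (it F m) θ Δ hP hThom hsT hB hNT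
  obtain ⟨c₁, hc₁, hx₁⟩ := nrx_ne hP hB.ne
  obtain ⟨c₂, hc₂, hx₂⟩ := nrx_ne hP (Pool.Agent.H8.HX.not_dvd_pderiv hP.mon hP.irr)
  obtain ⟨c₃, hc₃, hx₃⟩ := nrx_ne hP (Pool.Agent.H89.ED.pf_JPR pf_FLD ν r (d ^ m) k P (it F m) hP
    (by omega) hThom hsT)
  obtain ⟨x, hxP, hxb, hxg, hVp, hVt, -⟩ := hcor E θ Δ hB hcv' (g₁ * (c₁ * (c₂ * c₃)))
    (mul_ne_zero hg₁ (mul_ne_zero hc₁ (mul_ne_zero hc₂ hc₃)))
  obtain ⟨hxg₁, hxc₁, hxc₂, hxc₃⟩ : eval x (up g₁) ≠ 0 ∧ eval x (up c₁) ≠ 0 ∧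
      eval x (up c₂) ≠ 0 ∧ eval x (up c₃) ≠ 0 := by
    have h1 : eval x (up (g₁ * (c₁ * (c₂ * c₃)))) = eval x (up g₁) * (eval x (up c₁) *
        (eval x (up c₂) * eval x (up c₃))) := by
      simp only [up, map_mul]
    rw [h1] at hxg
    exact ⟨left_ne_zero_of_mul hxg, left_ne_zero_of_mul (right_ne_zero_of_mul hxg),
      left_ne_zero_of_mul (right_ne_zero_of_mul (right_ne_zero_of_mul hxg)),
      right_ne_zero_of_mul (right_ne_zero_of_mul (right_ne_zero_of_mul hxg))⟩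
  have hxΔ := hx₁ x hxP hxc₁
  have hxd := hx₂ x hxP hxc₂
  have hxj := hx₃ x hxP hxc₃
  obtain ⟨V, hV⟩ : ∃ V, V = van (it F m) x := ⟨_, rfl⟩
  have hzer := zer_span.mpr hxP
  have hmemV : ∀ q, q ∈ V → eval x q = 0 := by
    intro q hq
    rw [hV] at hq
    exact hq 0
  have hPV : P ∈ V := by
    rw [hV]
    intro n
    exact zer_iterate hsT.inv hzer n P (Ideal.mem_span_singleton_self P)
  have hΔV : Δ ∉ V := fun h => hxΔ (hmemV _ h)
  have hHm : Hmi V := by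
    rw [hV]
    rw [hV] at hΔV
    exact Facts.cne (ν + 1) r (d ^ m) E k P (it F m) θ Δ x hP hD2 hThom hsT hB hxP hVp hVt hΔV
  rw [← hV] at hVp hVt
  have hX1V : (X 1 : Po (ν + 2) k) ∉ V := by
    intro h
    have h1 := hxb 0
    rw [Function.iterate_zero, id, map_mul] at h1
    exact right_ne_zero_of_mul h1 (hmemV _ h)
  have hiff : ∀ q, aeval (it F m) q ∈ V ↔ q ∈ V := by
    intro q
    refine ⟨fun h => ?_, hVt.inv q⟩
    have h1 := hVt.ind (fun i => if (i : ℕ) = 0 then q else 0) (by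
      rw [Finset.sum_eq_single (⟨0, hB.pos⟩ : Fin E)]
      · rw [if_pos rfl, pow_zero, one_mul]
        exact h
      · intro i _ hi
        have h2 : (i : ℕ) ≠ 0 := fun h3 => hi (Fin.ext h3)
        rw [if_neg h2, map_zero, mul_zero]
      · intro h2
        exact absurd (Finset.mem_univ _) h2) ⟨0, hB.pos⟩
    simpa using h1
  have hmain : ∀ c ∈ V, P ∣ c := by
    intro c hc
    by_contra hPc
    by_cases hex : ∃ h, Pdv P V h
    · obtain ⟨h, hh⟩ := hex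
      have h1 := hinv V h hh hHm hVt
      exact hxg₁ (hmemV _ h1)
    obtain ⟨r', κ, _, _, η, τV, hFv⟩ := Pool.Agent.H65.ED.pf_FLV ν (d ^ m) k V (it F m) hVp hHm
      hX1V hThom hiff
    have hrν : r' + 2 ≤ ν := Pool.Agent.H45.ED.pf_VDM ν r r' k κ P V η hP hVp hHm hPV
      ⟨c, hc, hPc⟩ hex hFv.gv
    obtain ⟨K, _, _, ξ, τ, hFd⟩ := pf_FLD ν r d k P F hP hF hs
    obtain ⟨σ, hσ⟩ := iter_algHomX τ m
    have hFdm := fd_it hFd hP hF hs m σ hσ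
    obtain ⟨R, ρ, hR⟩ := Pool.Agent.H68.ED.pf_LRG ν r' k K κ P V ξ η hPV hFd.gp hFv.gv
    have h0 : aeval η (pderiv 0 P) ≠ 0 := fun h =>
      hxd (hmemV _ ((hFv.gv.iff _ _ hP.hom.pderiv).1 h))
    have hj : aeval η (jm P (it F m)).det ≠ 0 := by
      obtain ⟨D, hD⟩ := jm_hom hP.hom hThom
      exact fun h => hxj (hmemV _ ((hFv.gv.iff _ _ hD).1 h))
    obtain ⟨-, hreg, s, hg⟩ := vlm' hP hVp hHm hPV hThom hiff hFdm hFv h0 hj hR
    obtain ⟨a, hia, hia'⟩ := exists_coord hFv.gv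
    have hcvE : (d * e) ^ m ≤ E := by
      have h1 := All.cni (ν + 2) k (Ideal.span {P}) F (d * e) m hs hcv
      refine All.cdv (ν + 2) ((d * e) ^ m) E k (Ideal.span {P}) (it F m) θ h1 hB.pos fun u => ?_
      obtain ⟨M, c, hc⟩ := hB.gen u
      refine ⟨Δ ^ M, c, ?_, ?_⟩
      · rw [Ideal.mem_span_singleton]
        exact fun h => hB.ne (hpr.dvd_of_dvd_pow h)
      · rw [Ideal.mem_span_singleton, map_pow]
        exact hc
    have hfin : e ^ m ≤ Module.finrank τV.fieldRange κ :=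
      Pool.Agent.H65.ED.pf_TIV ν r' (d ^ m) E (e ^ m) k κ P θ (it F m) V η τV (by omega) hThom hVp
        hHm hiff hVt hFv (by rw [← mul_pow]; exact hcvE)
    refine gnum hμ0 hμ hm (B := (((s + 1) ^ ν : ℕ) : ℝ)) (C := C) fun l => ?_
    obtain ⟨g, hgh, hgl⟩ := hg l (ν - r' - 2) (by omega)
    obtain ⟨h1, h2⟩ := deg_iter (l := l) hfin hia hia'
    choose y hy hy' using fun i : Fin r' => hreg l ⟨aeval ξ (X (a i)), hR.mem _⟩
    have hy2 : (fun i => ρ (y i)) = fun i => τV^[l] (η (a i)) := by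
      funext i
      rw [hy', hR.val, aeval_X]
    have hσl : σ^[l] = τ^[m * l] := by
      rw [hσ, ← Function.iterate_mul]
    have hy3 : (fun i => (y i : K)) = fun i => pn τ ξ (m * l) (a i) := by
      funext i
      rw [hy, hσl]
      change τ^[m * l] (aeval ξ (X (a i) : Po (ν + 2) k)) = _
      rw [aeval_X]
      rfl
    have h3 := hgl y (by rw [hy2]; exact h1)
    rw [hy3, hy2] at h3
    have hY : ∀ s : Fin ν → Fin (ν + 2) → k, dg k (Set.range fun i : Fin ν =>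
        if (i : ℕ) < 2 then lc (s i) ξ else lc (s i) (pn τ ξ (m * l))) ≤
          ⌊C * μ ^ (m * l)⌋₊ := fun s =>
      Nat.le_floor (hdg K ξ τ hFd (m * l) s)
    have h4 := gbd Pool.Agent.H73.ED.pf_INM hFd.gp hrν hY hσl g hgh a
    have h5 : (e ^ m) ^ l ≤ (s + 1) ^ ν * ⌊C * μ ^ (m * l)⌋₊ := (h2.trans h3).trans h4
    have h6 : 0 ≤ C * μ ^ (m * l) := le_trans (Nat.cast_nonneg _)
      (hdg K ξ τ hFd (m * l) fun _ _ => 0)
    calc ((e ^ m : ℕ) : ℝ) ^ l = (((e ^ m) ^ l : ℕ) : ℝ) := by push_cast; rfl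
      _ ≤ (((s + 1) ^ ν * ⌊C * μ ^ (m * l)⌋₊ : ℕ) : ℝ) := by exact_mod_cast h5
      _ = (((s + 1) ^ ν : ℕ) : ℝ) * (⌊C * μ ^ (m * l)⌋₊ : ℝ) := by push_cast; rfl
      _ ≤ (((s + 1) ^ ν : ℕ) : ℝ) * (C * μ ^ (m * l)) :=
        mul_le_mul_of_nonneg_left (Nat.floor_le h6) (Nat.cast_nonneg _)
  refine ⟨x, hxP, fun n => ?_, fun c hc => hmain c ?_⟩
  · have h1 := hxb n
    rw [map_mul] at h1
    exact left_ne_zero_of_mul h1
  · rw [hV]
    intro n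
    rw [pmap_it_iterate]
    exact hc _

end Pool.Agent.H2.ED
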