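import Pool.Agent.H18.VP.Targets
import Pool.Agent.H18.VZ.Nfi

/-!
# Zariski dense orbits: fields of infinite transcendence degree, the targets
-/

open MvPolynomial
open Pool.Agent.H12.ZD (pmap)
open Pool.Agent.H18.HIT Pool.Agent.H18.HX Pool.Agent.H18.VZ
open Pool.Agent.H18.VP (Ftd)

namespace Pool.Agent.H2.ED

section

variable {L : ℕ} {k : Type} [Field k]

/-- at most `C μ ^ m` points of the projective variety defined by `I` satisfy `n` general equations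
`s 0 = t 0 s₀`, `s 1 = t 1 s₀` and, at the `m`-th iterate, `s i = t i s'` for `2 ≤ i` -/
def Pts (I : Ideal (Po L k)) (f : Tup L k) (n : ℕ) (μ C : ℝ) : Prop :=
  ∀ (m : ℕ) (s₀ s' : Po L k) (s : Fin n → Po L k), s₀.IsHomogeneous 1 → s'.IsHomogeneous 1 →
    (∀ i, (s i).IsHomogeneous 1) → ∃ c : Po n k, c ≠ 0 ∧
    ∀ t : Fin n → k, eval t c ≠ 0 → ∀ S : Finset (Fin L → k),
      (∀ x ∈ S, Zer I x ∧ eval x s₀ = 1 ∧ eval ((pmap f)^[m] x) s' ≠ 0 ∧
        ∀ i : Fin n, ((i : ℕ) < 2 → eval x (s i) = t i) ∧ (2 ≤ (i : ℕ) →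
          eval ((pmap f)^[m] x) (s i) = t i * eval ((pmap f)^[m] x) s')) →
      (S.card : ℝ) ≤ C * μ ^ m

/-- the theorem over the field `k`: rational self-maps of varieties whose topological degree is
larger than the dynamical degree `λ_(n - 2)` -/
def Gst (k : Type) [Field k] : Prop := ∀ (L n d t : ℕ) (I : Ideal (Po L k)) (f : Tup L k)
  (b : Po L k), I.IsPrime → (∀ c ∈ I, ∀ j, homogeneousComponent j c ∈ I) → (∃ i, X i ∉ I) →
  (∀ u : Fin (n + 2) → Po L k, ∃ q : Po (n + 2) k, q ≠ 0 ∧ aeval u q ∈ I) → 1 ≤ d →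
  (∀ i, (f i).IsHomogeneous d) → (∀ c ∈ I, aeval f c ∈ I) →
  (∀ (s : ℕ) (q : Po L k), q.IsHomogeneous s → aeval f q ∈ I → q ∈ I) → Nfi I f →
  (3 ≤ n → (∃ u : Fin (n + 1) → Po L k, ∀ q : Po (n + 1) k, aeval u q ∈ I → q = 0) ∧
    ∃ (e : ℕ) (μ C : ℝ), Pvi I f e ∧ 0 ≤ μ ∧ μ < e ∧ Pts I f n μ C) →
  b.IsHomogeneous t → b ∉ I →
  ∃ x : Fin L → k, Zer I x ∧ (∀ j : ℕ, (pmap f)^[j] x ≠ 0) ∧
    (∀ j : ℕ, eval ((pmap f)^[j] x) b ≠ 0) ∧
    ∀ (s : ℕ) (h : Po L k), h.IsHomogeneous s → (∀ j : ℕ, eval ((pmap f)^[j] x) h = 0) → h ∈ I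

/-- the polynomial with the same coefficients in a larger field -/
noncomputable def up₀ (k₀ : Type) {k : Type} [Field k₀] [Field k] [Algebra k₀ k] {N : ℕ} :
    Po N k₀ →+* Po N k := MvPolynomial.map (algebraMap k₀ k)

end

/-- finitely many elements are in an algebraically closed subfield of finite transcendence
degree -/
def T_DSK : Prop := ∀ (k : Type) [Field k] [IsAlgClosed k] [CharZero k] (s : Finset k),
  ∃ (k₀ : Type) (_ : Field k₀) (_ : IsAlgClosed k₀) (_ : CharZero k₀) (_ : Algebra k₀ k),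
    Ftd k₀ ∧ ∀ a ∈ s, ∃ a₀ : k₀, algebraMap k₀ k a₀ = a

/-- expansion of a polynomial over a subfield -/
def T_DSX : Prop := ∀ (N : ℕ) (k₀ k : Type) [Field k₀] [Field k] [Algebra k₀ k] (p : Po N k),
  ∃ (m : ℕ) (ω : Fin m → k) (q : Fin m → Po N k₀), LinearIndependent k₀ ω ∧
    p = ∑ j, C (ω j) * up₀ k₀ (q j)

/-- the coefficients of the expansion of an element of an ideal which is defined over the
subfield -/
def T_DSA : Prop := ∀ (N m : ℕ) (k₀ k : Type) [Field k₀] [Field k] [Algebra k₀ k]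
  (I₀ : Ideal (Po N k₀)) (ω : Fin m → k) (q : Fin m → Po N k₀), LinearIndependent k₀ ω →
  ∑ j, C (ω j) * up₀ k₀ (q j) ∈ Ideal.map (up₀ k₀ : Po N k₀ →+* Po N k) I₀ → ∀ j, q j ∈ I₀

/-- solutions over an algebraically closed subfield -/
def T_DSN : Prop := ∀ (σ k₀ k : Type) [Finite σ] [Field k₀] [IsAlgClosed k₀] [Field k]
  [Algebra k₀ k] (J : Ideal (MvPolynomial σ k₀)) (g : MvPolynomial σ k₀) (x : σ → k),
  (∀ q ∈ J, aeval x q = 0) → aeval x g ≠ 0 →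
  ∃ x₀ : σ → k₀, (∀ q ∈ J, eval x₀ q = 0) ∧ eval x₀ g ≠ 0

/-- the number of the preimages over an algebraically closed subfield -/
def T_DSP : Prop := ∀ (L e : ℕ) (k₀ k : Type) [Field k₀] [IsAlgClosed k₀] [Field k]
  [Algebra k₀ k] (I₀ : Ideal (Po L k₀)) (f₀ : Tup L k₀),
  Pvi (Ideal.map (up₀ k₀ : Po L k₀ →+* Po L k) I₀) (fun i => up₀ k₀ (f₀ i)) e → Pvi I₀ f₀ e

/-- the number of the points in the general fibre over a subfield -/
def T_DST : Prop := ∀ (L n : ℕ) (k₀ k : Type) [Field k₀] [Field k] [Algebra k₀ k]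
  (I₀ : Ideal (Po L k₀)) (f₀ : Tup L k₀) (μ C : ℝ),
  Pts (Ideal.map (up₀ k₀ : Po L k₀ →+* Po L k) I₀) (fun i => up₀ k₀ (f₀ i)) n μ C →
  Pts I₀ f₀ n μ C

/-- the theorem over fields of infinite transcendence degree -/
def T_DSF : Prop := (∀ (k : Type) [Field k] [IsAlgClosed k] [CharZero k], Ftd k → Gst k) →
  ∀ (k : Type) [Field k] [IsAlgClosed k] [CharZero k], Gst k

end Pool.Agent.H2.ED
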