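import Pool.Agent.H2.ED.Gam2
import Pool.Agent.H2.ED.Chi2
import Pool.Agent.H2.ED.Targets3
import Pool.Agent.H79.ED.DGE
import Pool.Agent.H79.ED.UPD

/-!
# Zariski dense orbits in dimension `ν`: large topological degree, arbitrary varieties
-/

set_option autoImplicit false

open MvPolynomial
open Pool.Agent.H12.ZD (pmap)
open Pool.Agent.H18.HIT Pool.Agent.H18.HX Pool.Agent.H18.VZ
open Pool.Agent.H18.VP (Ftd)
open Pool.Agent.H8.TD (lc dg)

namespace Pool.Agent.H2.ED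

section

variable {ν L : ℕ} {k K : Type} [Field k] [Field K] [Algebra k K] {I : Ideal (Po L k)}
  {l : Fin (ν + 2) → Po L k} {P : Po (ν + 2) k} {r : ℕ} {Δ : Po (ν + 1) k} {δ : ℕ}
  {ξ : Fin (ν + 2) → K} {χ : Fin L → K} {Nn : Fin L → Po (ν + 2) k} {F : Tup (ν + 2) k}
  {τ : K →ₐ[k] K} {f : Tup L k} {d : ℕ}

/-- the coordinates of the generic point of the variety generate the function field -/
theorem adjoin_chi (hpro : Pro I l P r Δ δ) (hG : Gp P ξ) (hC : Chi I l Δ δ ξ χ Nn)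
    {s₀ : Po L k} (h1 : aeval χ s₀ ≠ 0) :
    IntermediateField.adjoin k (Set.range fun i => χ i / aeval χ s₀) = ⊤ := by
  rw [eq_top_iff, ← hG.top, IntermediateField.adjoin_le_iff]
  rintro _ ⟨i, rfl⟩
  obtain ⟨M, hM⟩ : ∃ M : IntermediateField k K,
    M = IntermediateField.adjoin k (Set.range fun i => χ i / aeval χ s₀) := ⟨_, rfl⟩
  rw [← hM]
  have hmem : ∀ i, χ i / aeval χ s₀ ∈ M := fun i => by
    rw [hM]
    exact IntermediateField.subset_adjoin k _ ⟨i, rfl⟩
  have h3 : ∀ i, (aeval χ s₀)⁻¹ * ξ i ∈ M := by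
    intro i
    have h4 : (aeval χ s₀)⁻¹ * ξ i =
        aeval (fun i => (aeval χ s₀)⁻¹ * χ i) (l i) := by
      rw [aeval_smul_ring (hpro.lin i), hC.lin, pow_one]
    rw [h4, aeval_def, eval₂_eq']
    apply sum_mem
    intro m _
    apply mul_mem (M.algebraMap_mem _)
    apply prod_mem
    intro j _
    apply pow_mem
    rw [mul_comm, ← div_eq_mul_inv]
    exact hmem j
  have h4 := h3 1
  rw [hG.one, mul_one] at h4
  have h5 : ξ i = ((aeval χ s₀)⁻¹)⁻¹ * ((aeval χ s₀)⁻¹ * ξ i) := by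
    rw [inv_mul_cancel_left₀ (inv_ne_zero h1)]
  rw [h5]
  exact mul_mem (inv_mem h4) (h3 i)

/-- the linear form on the variety which restricts to a linear form on the hypersurface -/
noncomputable def plb (l : Fin (ν + 2) → Po L k) (s : Fin (ν + 2) → k) : Po L k :=
  ∑ j, C (s j) * l j

theorem plb_hom (hl : ∀ i, (l i).IsHomogeneous 1) (s : Fin (ν + 2) → k) :
    (plb l s).IsHomogeneous 1 := by
  refine IsHomogeneous.sum _ _ _ fun j _ => ?_
  have h1 := (isHomogeneous_C (Fin L) (s j)).mul (hl j)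
  rwa [Nat.zero_add] at h1

theorem plb_chi (hC : Chi I l Δ δ ξ χ Nn) (s : Fin (ν + 2) → k) :
    aeval χ (plb l s) = lc s ξ := by
  rw [plb, map_sum]
  refine Finset.sum_congr rfl fun j _ => ?_
  rw [map_mul, hC.lin, aeval_C, Algebra.smul_def]

theorem plb_iter (hpro : Pro I l P r Δ δ) (hC : Chi I l Δ δ ξ χ Nn) (h : Fd P F ξ τ)
    (hF1 : aeval ξ (F 1) ≠ 0) (hf : ∀ i, (f i).IsHomogeneous d) (hs : Slf I f)
    (hF : ∀ i, (F i).IsHomogeneous (d + δ))
    (hFl : ∀ i, aeval l (up Δ) * aeval f (l i) - aeval l (F i) ∈ I) (n : ℕ)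
    (s : Fin (ν + 2) → k) : aeval χ (aeval (it f n) (plb l s)) =
      aeval χ (aeval (it f n) (l 1)) * lc s (pn τ ξ n) := by
  obtain ⟨-, h2⟩ := tau_chi_iter hpro hC h hF1 hf hs hF hFl n
  obtain ⟨g, hg⟩ := iter_algHomX τ n
  have h3 : aeval χ (aeval (it f n) (plb l s)) =
      aeval (fun i => aeval χ (it f n i)) (plb l s) := by
    rw [← AlgHom.comp_apply, comp_aeval]
  have h4 : (fun i => aeval χ (it f n i)) = fun i => aeval χ (aeval (it f n) (l 1)) * g (χ i) := by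
    funext i
    rw [← h2, hg, mul_comm]
  have h5 : aeval (fun i => g (χ i)) (plb l s) = g (aeval χ (plb l s)) := by
    rw [← AlgHom.comp_apply, comp_aeval]
  rw [h3, h4, aeval_smul_ring (plb_hom hpro.lin s), pow_one, h5, plb_chi hC]
  congr 1
  simp only [lc, map_sum, map_smul]
  refine Finset.sum_congr rfl fun j _ => ?_
  rw [hg]
  rfl

/-- few points in the general fibre give a small degree: `j₀` of the linear systems are taken at
the point itself, the others at the `m`-th iterate -/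
theorem dg_le_of_points [IsAlgClosed k] [CharZero k] [hI : I.IsPrime]
    (hhom : ∀ c ∈ I, ∀ t, homogeneousComponent t c ∈ I)
    (hpro : Pro I l P r Δ δ) (hC : Chi I l Δ δ ξ χ Nn) (h : Fd P F ξ τ)
    (hF1 : aeval ξ (F 1) ≠ 0) (hf : ∀ i, (f i).IsHomogeneous d) (hs : Slf I f)
    (hF : ∀ i, (F i).IsHomogeneous (d + δ))
    (hFl : ∀ i, aeval l (up Δ) * aeval f (l i) - aeval l (F i) ∈ I) (m j₀ M : ℕ) (hj₀ : j₀ < ν)
    (hpts : ∀ s : Fin ν → Po L k, (∀ i, (s i).IsHomogeneous 1) → ∃ c : Po ν k, c ≠ 0 ∧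
      ∀ t : Fin ν → k, eval t c ≠ 0 → ∀ S : Finset (Fin L → k),
        (∀ x ∈ S, Zer I x ∧ eval x (l 1) = 1 ∧ eval ((pmap f)^[m] x) (l 1) ≠ 0 ∧
          ∀ i : Fin ν, ((i : ℕ) < j₀ → eval x (s i) = t i) ∧ (j₀ ≤ (i : ℕ) →
            eval ((pmap f)^[m] x) (s i) = t i * eval ((pmap f)^[m] x) (l 1))) →
        S.card ≤ M) (s : Fin ν → Fin (ν + 2) → k) :
    dg k (Set.range fun i : Fin ν =>
      if (i : ℕ) < j₀ then lc (s i) ξ else lc (s i) (pn τ ξ m)) ≤ M := by
  obtain ⟨hne, -⟩ := tau_chi_iter hpro hC h hF1 hf hs hF hFl m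
  have h11 : aeval χ (l 1) = 1 := by rw [hC.lin, h.gp.one]
  have h1 : aeval χ (l 1) ≠ 0 := by
    rw [h11]
    exact one_ne_zero
  obtain ⟨c, hc, hpt⟩ := hpts (fun i => plb l (s i)) fun i => plb_hom hpro.lin (s i)
  have hev : ∀ (x : Fin L → k) (q : Po L k), eval x (aeval (it f m) q) =
      eval ((pmap f)^[m] x) q := by
    intro x q
    rw [Pool.Agent.H18.HIT.eval_aeval, pmap_it]
  have h2 := Pool.Agent.H79.ED.pf_UPD L ν M k K I χ (l 1)
    (fun i => if (i : ℕ) < j₀ then plb l (s i) else aeval (it f m) (plb l (s i)))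
    (fun i => if (i : ℕ) < j₀ then l 1 else aeval (it f m) (l 1))
    (fun i => if (i : ℕ) < j₀ then 1 else d ^ m * 1) c hI hhom h.gp.trd (hpro.lin 1)
    (fun i => by
      split_ifs
      · exact plb_hom hpro.lin _
      · exact aeval_hom (it_hom hf m) (plb_hom hpro.lin _))
    (fun i => by
      split_ifs
      · exact hpro.lin 1
      · exact aeval_hom (it_hom hf m) (hpro.lin 1))
    h1 (fun i => by
      split_ifs
      · exact h1
      · exact hne) (adjoin_chi hpro h.gp hC h1) hC.iff hc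
    (fun t ht S hS => by
      refine hpt t ht S fun x hx => ?_
      obtain ⟨hx1, hx2, hx3⟩ := hS x hx
      refine ⟨hx1, hx2, ?_, fun i => ⟨fun hi => ?_, fun hi => ?_⟩⟩
      · have h3 := (hx3 ⟨ν - 1, by omega⟩).1
        rw [if_neg (by simp only; omega), hev] at h3
        exact h3
      · have h3 := (hx3 i).2
        rw [if_pos hi, if_pos hi, hx2, mul_one] at h3
        exact h3
      · have h3 := (hx3 i).2
        rw [if_neg (by omega), if_neg (by omega), hev, hev] at h3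
        exact h3)
  have h3 : (fun i : Fin ν => if (i : ℕ) < j₀ then lc (s i) ξ else lc (s i) (pn τ ξ m)) =
      fun i : Fin ν => aeval χ (if (i : ℕ) < j₀ then plb l (s i) else
        aeval (it f m) (plb l (s i))) / aeval χ (if (i : ℕ) < j₀ then l 1 else
        aeval (it f m) (l 1)) := by
    funext i
    split_ifs with hi
    · rw [h11, div_one, plb_chi hC]
    · rw [plb_iter hpro hC h hF1 hf hs hF hFl m, mul_div_cancel_left₀ _ hne]
  rw [h3]
  exact h2

end

/-- **large topological degree**: rational self-maps of a projective variety whose topological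
degree is larger than the dynamical degree `λ_(n - 2)` -/
theorem gamX {L : ℕ} {k : Type} [Field k] [IsAlgClosed k] [CharZero k] (hk : Ftd k)
    {I : Ideal (Po L k)} (hI : I.IsPrime) (hhom : ∀ c ∈ I, ∀ t, homogeneousComponent t c ∈ I)
    (hne : ∃ i, X i ∉ I) (n : ℕ) (hn : 3 ≤ n)
    (hdim : ∀ u : Fin (n + 2) → Po L k, ∃ q : Po (n + 2) k, q ≠ 0 ∧ aeval u q ∈ I)
    (hdim' : ∃ u : Fin (n + 1) → Po L k, ∀ q : Po (n + 1) k, aeval u q ∈ I → q = 0)
    (f : Tup L k) (d : ℕ) (hd : 1 ≤ d) (hf : ∀ i, (f i).IsHomogeneous d)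
    (hinv : ∀ c ∈ I, aeval f c ∈ I)
    (hdom : ∀ (s : ℕ) (q : Po L k), q.IsHomogeneous s → aeval f q ∈ I → q ∈ I)
    (hNf : Nfi I f) (e : ℕ) (μ C : ℝ) (he : Pvi I f e) (hμ0 : 0 ≤ μ) (hμ : μ < e)
    (hpts : ∀ (m : ℕ) (s₀ s' : Po L k) (s : Fin n → Po L k), s₀.IsHomogeneous 1 →
      s'.IsHomogeneous 1 → (∀ i, (s i).IsHomogeneous 1) → ∃ c : Po n k, c ≠ 0 ∧
      ∀ t : Fin n → k, eval t c ≠ 0 → ∀ S : Finset (Fin L → k),
        (∀ x ∈ S, Zer I x ∧ eval x s₀ = 1 ∧ eval ((pmap f)^[m] x) s' ≠ 0 ∧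
          ∀ i : Fin n, ((i : ℕ) < 2 → eval x (s i) = t i) ∧ (2 ≤ (i : ℕ) →
            eval ((pmap f)^[m] x) (s i) = t i * eval ((pmap f)^[m] x) s')) →
        (S.card : ℝ) ≤ C * μ ^ m)
    (b : Po L k) (t : ℕ) (hb : b.IsHomogeneous t) (hbI : b ∉ I) :
    ∃ x : Fin L → k, Zer I x ∧ (∀ j : ℕ, (pmap f)^[j] x ≠ 0) ∧
      (∀ j : ℕ, eval ((pmap f)^[j] x) b ≠ 0) ∧
      ∀ (s : ℕ) (h : Po L k), h.IsHomogeneous s → (∀ j : ℕ, eval ((pmap f)^[j] x) h = 0) →
        h ∈ I := by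
  have hI' := hI
  have hsf := slf_of_forms hhom hd hf hinv hdom
  obtain ⟨i0, hi0⟩ := hne
  obtain ⟨N, l, hN, hl1, hind, hint, hden⟩ := Pool.Agent.H18.HX.All.nfa L k I hhom ⟨i0, hi0⟩
  have hl0 : ∃ Q : Polynomial (Po N k), Q.Monic ∧
      evg (fun j : Fin N => l j.succ) (l 0) Q ∈ I := int_all hint _
  obtain ⟨P, r, hP, hker⟩ := Pool.Agent.H18.HX.All.nfb L N k I l hhom hl1 hind hl0
  obtain ⟨Δ, δ, hpro⟩ := Pool.Agent.H18.HX.All.nfc L N r k I l P hN hhom hl1 hind hint hden hP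
    hker
  have hNn := dim_le (n := n) hind hdim
  obtain ⟨u, hu⟩ := hdim'
  have hnN := Pool.Agent.H79.ED.pf_DGE L N (n + 1) k I (fun j : Fin N => l j.succ) u hint hu
  obtain rfl : N = n + 1 := by omega
  obtain ⟨B, hBdef⟩ : ∃ B : Po L k, B = b * X i0 := ⟨_, rfl⟩
  have hBh : B.IsHomogeneous (t + 1) := by
    rw [hBdef]
    exact hb.mul (isHomogeneous_X k i0)
  have hBI : B ∉ I := by
    rw [hBdef]
    exact fun h => (hI.mem_or_mem h).elim hbI hi0
  obtain ⟨F, hF, hFl, hFP⟩ := Pool.Agent.H18.HX.All.lft L (n + 1) r δ d k I l P Δ f hpro hhom hf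
    hsf.inv
  have hr : 1 ≤ r := by
    by_contra hr0
    have hr0' : r = 0 := by omega
    apply hpro.hyp.irr.not_isUnit
    have h1 : P.totalDegree = 0 := by
      have := hpro.hyp.hom.totalDegree_le
      omega
    rw [totalDegree_eq_zero_iff_eq_C] at h1
    rw [h1, isUnit_map_iff, isUnit_iff_ne_zero]
    intro h0
    rw [h0, C_0] at h1
    exact hpro.hyp.irr.ne_zero h1
  have hδ : 1 ≤ δ := hr.trans hpro.le
  have hsF : Slf (Ideal.span {P}) F := lift_slf hpro hsf hF (by omega) hFl hFP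
  have hNF : NIv P F := lift_niv hpro hNf hFl
  obtain ⟨b', hb', hPb', htr⟩ := Pool.Agent.H18.HX.All.trv L (n + 1) r δ d (t + 1) k I l P Δ f F B
    hpro hhom hf hsf.inv hF hFl hBh hBI
  have hcv : Cvi (Ideal.span {P}) F ((d + δ) * e) :=
    pf_TWI L (n + 1) r δ d e k I l P Δ f F hpro hhom hf hsf hF hFl he
  obtain ⟨y, hy, hyb, hyd⟩ := gam k hk (ν := n) (μ := μ) (C := C) hpro.hyp
    (hpro.le.trans (Nat.le_add_left δ d)) (by omega) hF hsF hNF hcv hμ0 hμ
    (fun K _ _ ξ τ hfd m s => by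
      obtain ⟨χ, Nn, hC⟩ := exists_chi hpro hfd.gp
      have hF1 : aeval ξ (F 1) ≠ 0 := by
        have h1 := (pn_eq hfd hpro.hyp hF hsF 1).1
        rwa [it_one] at h1
      have hupl : aeval l (up Δ) = aeval (fun j : Fin (n + 1) => l j.succ) Δ := by
        rw [up, aeval_rename]
        rfl
      have h0 : 0 ≤ C * μ ^ m := by
        obtain ⟨c, hc, hS⟩ := hpts m 0 0 (fun _ => 0) (isHomogeneous_zero _ _ _)
          (isHomogeneous_zero _ _ _) (fun _ => isHomogeneous_zero _ _ _)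
        obtain ⟨t, ht⟩ : ∃ t : Fin n → k, eval t c ≠ 0 := by
          by_contra hcon
          push Not at hcon
          exact hc (MvPolynomial.funext fun t => by rw [hcon t, map_zero])
        have h1 := hS t ht ∅ (fun x hx => absurd hx (Finset.notMem_empty x))
        rwa [Finset.card_empty, Nat.cast_zero] at h1
      have h1 := dg_le_of_points hhom hpro hC hfd hF1 hf hsf hF (by
          intro i
          rw [hupl]
          exact hFl i) m 2 ⌊C * μ ^ m⌋₊ (by omega) (fun s hs => by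
        obtain ⟨c, hc, hS⟩ := hpts m (l 1) (l 1) s (hpro.lin 1) (hpro.lin 1) hs
        exact ⟨c, hc, fun t ht S hS' => Nat.le_floor (hS t ht S hS')⟩) s
      exact (Nat.cast_le.2 h1).trans (Nat.floor_le h0)) hb' hPb'
  obtain ⟨a, ha, hab, had⟩ := htr y hy hyb hyd
  refine ⟨a, ha, fun j h0 => ?_, fun j => ?_, had⟩
  · apply hab j
    rw [h0, hBdef, map_mul, eval_X, Pi.zero_apply, mul_zero]
  · have h1 := hab j
    rw [hBdef, map_mul] at h1
    exact left_ne_zero_of_mul h1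

/-- the theorem over fields of finite transcendence degree -/
theorem gst_of_ftd (k : Type) [Field k] [IsAlgClosed k] [CharZero k] (hk : Ftd k) : Gst k := by
  intro L n d t I f b hI hhom hne hdim hd hf hinv hdom hNf hlarge hb hbI
  by_cases hn : 3 ≤ n
  · obtain ⟨hdim', e, μ, C, he, hμ0, hμ, hpts⟩ := hlarge hn
    exact gamX hk hI hhom hne n hn hdim hdim' f d hd hf hinv hdom hNf e μ C he hμ0 hμ hpts b t hb
      hbI
  · exact finalZ hk hI hhom hne n hdim f d hd hf hinv hdom hNf (fun h => absurd h hn) b t hb hbI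

end Pool.Agent.H2.ED
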