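import Pool.Agent.H2.ED.Targets

/-!
# Zariski dense orbits in dimension `ν`: two more targets
-/

open MvPolynomial
open Pool.Agent.H12.ZD (pmap)
open Pool.Agent.H18.HIT Pool.Agent.H18.HX Pool.Agent.H18.VZ
open Pool.Agent.H8.TD (lc dg Wsp)

namespace Pool.Agent.H2.ED

/-- functions with a nonzero jacobian determinant -/
def T_FDM : Prop := ∀ (k R K : Type) [Field k] [CharZero k] [CommRing R] [IsDomain R] [Field K]
  [Algebra k R] [Algebra R K] [Algebra k K] [IsScalarTower k R K] (n : ℕ)
  (D : Fin n → Derivation k R R) (u : Fin n → R), Function.Injective (algebraMap R K) →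
  (⊤ : IntermediateField k K).FG → Algebra.trdeg k K = n →
  (Matrix.of fun a j => D j (u a)).det ≠ 0 →
  FiniteDimensional (IntermediateField.adjoin k (Set.range fun i => algebraMap R K (u i))) K

/-- the dimension of a variety -/
def T_DGE : Prop := ∀ (L N M : ℕ) (k : Type) [Field k] (I : Ideal (Po L k)) [I.IsPrime]
  (l : Fin N → Po L k) (u : Fin M → Po L k),
  (∀ i, ∃ Q : Polynomial (Po N k), Q.Monic ∧ evg l (X i) Q ∈ I) →
  (∀ q : Po M k, aeval u q ∈ I → q = 0) → M ≤ N

end Pool.Agent.H2.ED
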