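import Pool.Agent.H2.ED.Targets2

/-!
# Zariski dense orbits in dimension `ν`: the lemma on totally invariant closed subsets
-/

set_option autoImplicit false

open MvPolynomial
open Pool.Agent.H12.ZD (pmap)
open Pool.Agent.H18.HIT Pool.Agent.H18.HX Pool.Agent.H18.VZ
open Pool.Agent.H8.TD (lc dg Wsp)

namespace Pool.Agent.H2.ED

/-- functions of `z` at the `l`-th iterate, the first `p`, and at the point itself, the others -/
noncomputable def wfn {k K : Type} [Field k] [Field K] [Algebra k K] {ν c : ℕ} (τ : K →ₐ[k] K)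
    (ξ : Fin (ν + 2) → K) (g : Fin c → Po (ν + 2) k) (l p : ℕ) : Fin c → K :=
  fun i => if (i : ℕ) < p then τ^[l] (aeval ξ (g i)) else aeval ξ (g i)

section

variable {ν r₀ r d : ℕ} {k K κ : Type} [Field k] [CharZero k] [Field K] [Algebra k K]
  [Field κ] [Algebra k κ] {P : Po (ν + 2) k} {V : Ideal (Po (ν + 2) k)} {T : Tup (ν + 2) k}
  {ξ : Fin (ν + 2) → K} {η : Fin (ν + 2) → κ} {τ : K →ₐ[k] K} {τV : κ →ₐ[k] κ}

/-- functions at the iterates -/
theorem iter_reg {R : Subalgebra k K} {ρ : R →ₐ[k] κ}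
    (h : ∀ z : R, ∃ z' : R, (z' : K) = τ z ∧ ρ z' = τV (ρ z)) (l : ℕ) (z : R) :
    ∃ z' : R, (z' : K) = τ^[l] z ∧ ρ z' = τV^[l] (ρ z) := by
  induction l with
  | zero => exact ⟨z, rfl, rfl⟩
  | succ l ih =>
    obtain ⟨z', h1, h2⟩ := ih
    obtain ⟨z'', h3, h4⟩ := h z'
    refine ⟨z'', ?_, ?_⟩
    · rw [h3, h1, Function.iterate_succ_apply']
    · rw [h4, h2, Function.iterate_succ_apply']

/-- **the lemma on totally invariant closed subsets** -/
theorem vlm (hDRV : T_DRV) (hJCB : T_JCB) (hTRV : T_TRV) (hKSP : T_KSP) (hCHN : T_CHN)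
    (hRES : T_RES) (hXCH : T_XCH) (hFDM : T_FDM) (hP : Hyp P r₀) (hV : V.IsPrime) (hH : Hmi V)
    (hPV : P ∈ V) (hT : ∀ i, (T i).IsHomogeneous d) (hinv : ∀ q, aeval T q ∈ V ↔ q ∈ V)
    (hfd : Fd P T ξ τ) (hfv : Fv V r T η τV) (h0 : aeval η (pderiv 0 P) ≠ 0)
    (hj : aeval η (jm P T).det ≠ 0) {R : Subalgebra k K} {ρ : R →ₐ[k] κ} (hR : Lrd ξ η R ρ) :
    r ≤ ν ∧ (∀ (l : ℕ) (z : R), ∃ z' : R, (z' : K) = τ^[l] z ∧ ρ z' = τV^[l] (ρ z)) ∧
    ∃ s : ℕ, ∀ l p : ℕ, p ≤ ν - r → ∃ g : Fin (ν - r) → Po (ν + 2) k,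
      (∀ i, (g i).IsHomogeneous s) ∧
      ∀ y : Fin r → R, AlgebraicIndependent k (fun i => ρ (y i)) →
        dg k (Set.range fun i => ρ (y i)) ≤
          dg k (Set.range (wfn τ ξ g l p) ∪ Set.range (fun i => (y i : K))) := by
  classical
  obtain ⟨D, hD⟩ := hDRV ν r₀ r k K κ P V ξ η R ρ hP hPV hfd.gp hfv.gv hR h0
  obtain ⟨hrν, s, q, hq, hqi, hqs⟩ := hJCB ν r₀ r k κ P V η hP hV hH hPV hfv.gv h0
  obtain ⟨hreg, hchn⟩ := hCHN ν r₀ r d k K κ P V T ξ η τ τV R ρ D hP hPV hH hT hinv hfd hfv hR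
    h0 hD hj
  have hksp := hKSP ν r₀ r k K κ P V ξ η R ρ D hP hPV hH hfd.gp hfv.gv hR h0 hD
  have htrv := hTRV ν r₀ r k K κ P V ξ η R ρ D hP hPV hfd.gp hfv.gv hR h0 hD
  refine ⟨hrν, fun l z => iter_reg hreg l z, s, fun l p hp => ?_⟩
  -- the vector of derivatives of a function
  obtain ⟨vec, hvec⟩ : ∃ vec : R → (Fin ν → κ), vec = fun z j => ρ (D j z) := ⟨_, rfl⟩
  have hP0 : ρ ⟨aeval ξ (pderiv 0 P), hR.mem _⟩ ≠ 0 := by
    rw [hR.val]
    exact h0
  -- the derivatives of forms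
  have hgr : ∀ p : Po (ν + 2) k, gr P η p = aeval η (pderiv 0 P) • vec ⟨aeval ξ p, hR.mem p⟩ := by
    intro p
    funext j
    have h1 : D j ⟨aeval ξ p, hR.mem p⟩ * ⟨aeval ξ (pderiv 0 P), hR.mem _⟩ =
        (⟨aeval ξ (dd P j.succ p), hR.mem _⟩ : R) := Subtype.ext (hD j p (hR.mem p))
    have h2 := congrArg ρ h1
    rw [map_mul, hR.val, hR.val] at h2
    rw [hvec, Pi.smul_apply, smul_eq_mul, mul_comm]
    exact h2.symm
  obtain ⟨z0, hz0⟩ : ∃ z0 : Fin (ν - r) → R, z0 = fun i => ⟨aeval ξ (q i), hR.mem _⟩ := ⟨_, rfl⟩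
  have hz0v : ∀ i, ρ (z0 i) = 0 := by
    intro i
    rw [hz0, hR.val]
    exact (hfv.gv.iff s (q i) (hq i).2).2 (hq i).1
  have hz0g : ∀ i, vec (z0 i) = (aeval η (pderiv 0 P))⁻¹ • gr P η (q i) := by
    intro i
    rw [hgr, smul_smul, inv_mul_cancel₀ h0, one_smul, hz0]
  have ha : LinearIndependent κ (fun i => vec (z0 i)) := by
    have h1 : (fun i => vec (z0 i)) = fun i => (Units.mk0 _ (inv_ne_zero h0) : κˣ) •
        gr P η (q i) := by
      funext i
      rw [hz0g]
      rfl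
    rw [h1]
    exact hqi.units_smul fun _ => Units.mk0 _ (inv_ne_zero h0)
  have hspan : Submodule.span κ (Set.range fun i => gr P η (q i)) ≤
      Submodule.span κ (Set.range fun i => vec (z0 i)) := by
    rw [Submodule.span_le]
    rintro _ ⟨i, rfl⟩
    have h1 : gr P η (q i) = aeval η (pderiv 0 P) • vec (z0 i) := by
      rw [hgr, hz0]
    change gr P η (q i) ∈ _
    rw [h1]
    exact Submodule.smul_mem _ _ (Submodule.subset_span ⟨i, rfl⟩)
  have hker : ∀ z : R, ρ z = 0 → vec z ∈ Submodule.span κ (Set.range fun i => vec (z0 i)) := by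
    intro z hz
    obtain ⟨p, hpV, c, hc⟩ := hksp z hz
    have h1 : vec z = c • gr P η p := by
      rw [hvec]
      exact hc
    rw [h1]
    exact Submodule.smul_mem _ _ (hspan (hqs p hpV))
  -- the functions at the iterate
  have hit : ∃ zl : Fin (ν - r) → R, (∀ i, (zl i : K) = τ^[l] (z0 i)) ∧ (∀ i, ρ (zl i) = 0) ∧
      LinearIndependent κ (fun i => vec (zl i)) := by
    have h1 : ∀ l : ℕ, ∃ zl : Fin (ν - r) → R, (∀ i, (zl i : K) = τ^[l] (z0 i)) ∧
        (∀ i, ρ (zl i) = 0) ∧ LinearIndependent κ (fun i => vec (zl i)) := by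
      intro l
      induction l with
      | zero => exact ⟨z0, fun _ => rfl, hz0v, ha⟩
      | succ l ih =>
        obtain ⟨zl, h1, h2, h3⟩ := ih
        choose z' hz'1 hz'2 using hreg
        refine ⟨fun i => z' (zl i), fun i => ?_, fun i => ?_, ?_⟩
        · rw [hz'1, h1, Function.iterate_succ_apply']
        · rw [hz'2, h2, map_zero]
        · have h4 := hchn (ν - r) zl (fun i => z' (zl i)) (fun i => hz'1 (zl i)) (by
            rw [hvec] at h3
            exact h3)
          rw [hvec]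
          exact h4
    exact h1 l
  obtain ⟨zl, hzl, hzlv, hb⟩ := hit
  obtain ⟨f, hf, hf1, hf2⟩ := hXCH κ (Fin ν → κ) (ν - r) (fun i => vec (z0 i))
    (fun i => vec (zl i)) ha hb (fun i => hker _ (hzlv i)) p hp
  have hw : ∀ i : Fin (ν - r), ∃ (g : Po (ν + 2) k) (w : R), g.IsHomogeneous s ∧
      (w : K) = (if (i : ℕ) < p then τ^[l] (aeval ξ g) else aeval ξ g) ∧ ρ w = 0 ∧
      vec w = f i := by
    intro i
    rcases Nat.lt_or_ge (i : ℕ) p with hi | hi
    · refine ⟨q i, zl i, (hq i).2, ?_, hzlv i, (hf1 i hi).symm⟩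
      rw [if_pos hi, hzl, hz0]
    · obtain ⟨i', hi'⟩ := hf2 i hi
      refine ⟨q i', z0 i', (hq i').2, ?_, hz0v i', hi'.symm⟩
      rw [if_neg (by omega), hz0]
  choose g w hg hwK hwv hwf using hw
  refine ⟨g, hg, fun y hy => ?_⟩
  have hfs : ∀ v : Fin ν → κ, (∀ i, ∑ j, v j * f i j = 0) → ∀ i, ∑ j, v j * vec (z0 i) j = 0 := by
    intro v hv i
    have h1 : Submodule.span κ (Set.range f) = Submodule.span κ
        (Set.range fun i => vec (z0 i)) := by
      apply Submodule.eq_of_le_of_finrank_eq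
      · rw [Submodule.span_le]
        rintro _ ⟨i, rfl⟩
        rw [← hwf]
        exact hker _ (hwv i)
      · rw [finrank_span_eq_card hf, finrank_span_eq_card ha]
    have h2 : vec (z0 i) ∈ Submodule.span κ (Set.range f) := by
      rw [h1]
      exact Submodule.subset_span ⟨i, rfl⟩
    obtain ⟨φ, hφ⟩ : ∃ φ : (Fin ν → κ) →ₗ[κ] κ, ∀ x, φ x = ∑ j, v j * x j := by
      refine ⟨∑ j, v j • LinearMap.proj j, fun x => ?_⟩
      rw [LinearMap.sum_apply]
      rfl
    have h3 : Submodule.span κ (Set.range f) ≤ LinearMap.ker φ := by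
      rw [Submodule.span_le]
      rintro _ ⟨i, rfl⟩
      change φ (f i) = 0
      rw [hφ]
      exact hv i
    have h4 := h3 h2
    rw [LinearMap.mem_ker, hφ] at h4
    exact h4
  have hvz : ∀ v : Fin ν → κ, (∀ i, ∑ j, v j * ρ (D j (w i)) = 0) →
      (∀ i, ∑ j, v j * ρ (D j (y i)) = 0) → v = 0 := by
    intro v hv1 hv2
    apply htrv y hy v _ hv2
    intro p' hp'
    have h1 : ∀ i, ∑ j, v j * f i j = 0 := by
      intro i
      rw [← hwf, hvec]
      exact hv1 i
    have h2 := hfs v h1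
    obtain ⟨φ, hφ⟩ : ∃ φ : (Fin ν → κ) →ₗ[κ] κ, ∀ x, φ x = ∑ j, v j * x j := by
      refine ⟨∑ j, v j • LinearMap.proj j, fun x => ?_⟩
      rw [LinearMap.sum_apply]
      rfl
    have h3 : Submodule.span κ (Set.range fun i => vec (z0 i)) ≤ LinearMap.ker φ := by
      rw [Submodule.span_le]
      rintro _ ⟨i, rfl⟩
      change φ (vec (z0 i)) = 0
      rw [hφ]
      exact h2 i
    have h4 := h3 (hspan (hqs p' hp'))
    rw [LinearMap.mem_ker, hφ] at h4
    exact h4
  have hcr : ν - r + r = ν := Nat.sub_add_cancel hrν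
  have hset : Set.range (wfn τ ξ g l p) = Set.range (fun i => algebraMap R K (w i)) := by
    congr 1
    funext i
    rw [wfn]
    exact (hwK i).symm
  have hset2 : Set.range (fun i => (y i : K)) = Set.range (fun i => algebraMap R K (y i)) := rfl
  rw [hset, hset2]
  refine hRES k R K κ ρ ν (ν - r) r D w y (Subtype.val_injective) hR.sur
    (fun z hz => ?_) hcr hwv hy hvz ?_
  · have hzK : (z : K) ≠ 0 := by
      intro h1
      apply hz
      have h2 : z = 0 := Subtype.ext h1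
      rw [h2, map_zero]
    refine ⟨⟨z, ⟨(z : K)⁻¹, hR.inv z hz⟩, Subtype.ext ?_, Subtype.ext ?_⟩, rfl⟩
    · exact mul_inv_cancel₀ hzK
    · exact inv_mul_cancel₀ hzK
  · -- finiteness
    obtain ⟨u, hu⟩ : ∃ u : Fin ν → R, u = fun i : Fin ν => if h : (i : ℕ) < ν - r then w ⟨i, h⟩
      else y ⟨(i : ℕ) - (ν - r), by have := i.2; omega⟩ := ⟨_, rfl⟩
    have hru : Set.range (fun i => algebraMap R K (w i)) ∪ Set.range
        (fun i => algebraMap R K (y i)) = Set.range fun i => algebraMap R K (u i) := by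
      ext x
      constructor
      · rintro (⟨i, rfl⟩ | ⟨i, rfl⟩)
        · refine ⟨⟨i, by have := i.2; omega⟩, ?_⟩
          have hi : ((⟨i, by have := i.2; omega⟩ : Fin ν) : ℕ) < ν - r := i.2
          simp only [hu]
          rw [dif_pos hi]
        · refine ⟨⟨i + (ν - r), by have := i.2; omega⟩, ?_⟩
          have hi : ¬ ((⟨(i : ℕ) + (ν - r), by have := i.2; omega⟩ : Fin ν) : ℕ) < ν - r := by
            simp
          simp only [hu]
          rw [dif_neg hi]
          congr 2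
          apply Fin.ext
          simp
      · rintro ⟨i, rfl⟩
        simp only [hu]
        by_cases hi : (i : ℕ) < ν - r
        · rw [dif_pos hi]
          exact Or.inl ⟨_, rfl⟩
        · rw [dif_neg hi]
          exact Or.inr ⟨_, rfl⟩
    rw [hru]
    refine hFDM k R K ν D u Subtype.val_injective ?_ hfd.gp.trd ?_
    · exact IntermediateField.fg_def.2 ⟨Set.range ξ, Set.finite_range _, hfd.gp.top⟩
    · intro hdet
      have h1 : ρ (Matrix.of fun a j => D j (u a)).det = 0 := by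
        rw [hdet, map_zero]
      rw [AlgHom.map_det] at h1
      obtain ⟨v, hv0, hv⟩ := Matrix.exists_mulVec_eq_zero_iff.2 h1
      apply hv0
      have hvi : ∀ i : Fin ν, ∑ j, v j * ρ (D j (u i)) = 0 := by
        intro i
        have h2 := congrFun hv i
        rw [Matrix.mulVec, dotProduct] at h2
        rw [Pi.zero_apply] at h2
        rw [← h2]
        refine Finset.sum_congr rfl fun j _ => ?_
        rw [mul_comm]
        rfl
      apply hvz v
      · intro i
        have h2 := hvi ⟨i, by have := i.2; omega⟩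
        have hi : ((⟨i, by have := i.2; omega⟩ : Fin ν) : ℕ) < ν - r := i.2
        simp only [hu] at h2
        rw [dif_pos hi] at h2
        exact h2
      · intro i
        have h2 := hvi ⟨i + (ν - r), by have := i.2; omega⟩
        have hi : ¬ ((⟨(i : ℕ) + (ν - r), by have := i.2; omega⟩ : Fin ν) : ℕ) < ν - r := by
          simp
        simp only [hu] at h2
        rw [dif_neg hi] at h2
        have h3 : ∀ h, (⟨(i : ℕ) + (ν - r) - (ν - r), h⟩ : Fin r) = i := by
          intro h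
          apply Fin.ext
          simp
        simp only [h3] at h2
        exact h2

end

end Pool.Agent.H2.ED
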